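import Pool.Agent.Lib.MP_37c7bf_co_h74dm.MachineK
import Pool.Agent.Lib.MP_37c7bf_co_h77dm.Uni
import Pool.Agent.Lib.FOLFPd_h54.Poly

/-!
# The arrays of the uniform machine

Clusters, the kernel set, its elements in increasing order, addition and multiplication modulo
`q + 1`, and digits in base `q + 1`.
-/

namespace Pool.Agent.Lib.MP_37c7bf_co_h74dm

open Pool.Agent.Lib.PolyTM Pool.Agent.Lib.FOLFP Pool.Agent.Lib.FOLFPd Function Turing

open Pool.Agent.Lib.MP_37c7bf_co_h77dm (InC Ker Ker4 KAdj IsKer4 AccU)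
open Pool.Agent.Lib.MP_37c7bf_co_h26dm (ThreeR GlR StR stR_iff)
open Pool.Agent.Lib.MP_37c7bf_co_Poly (SeedR)

/-- The arrays. -/
inductive WU
  | cl | ker | ix | pl | tm | dg
  deriving DecidableEq, Fintype

/-- The index places of the arrays. -/
abbrev iu : WU → Type
  | .cl => Fin 14 ⊕ Unit
  | .ker => Unit
  | .ix => Fin 2
  | .pl => Fin 4
  | .tm => Fin 4
  | .dg => Fin 4

instance iuFintype : ∀ w, Fintype (iu w)
  | .cl => inferInstanceAs (Fintype (Fin 14 ⊕ Unit))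
  | .ker => inferInstanceAs (Fintype Unit)
  | .ix => inferInstanceAs (Fintype (Fin 2))
  | .pl => inferInstanceAs (Fintype (Fin 4))
  | .tm => inferInstanceAs (Fintype (Fin 4))
  | .dg => inferInstanceAs (Fintype (Fin 4))

instance iuDecidableEq : ∀ w, DecidableEq (iu w)
  | .cl => inferInstanceAs (DecidableEq (Fin 14 ⊕ Unit))
  | .ker => inferInstanceAs (DecidableEq Unit)
  | .ix => inferInstanceAs (DecidableEq (Fin 2))
  | .pl => inferInstanceAs (DecidableEq (Fin 4))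
  | .tm => inferInstanceAs (DecidableEq (Fin 4))
  | .dg => inferInstanceAs (DecidableEq (Fin 4))

/-- The cluster table. -/
def ucl (N : ℕ) (a : Arr (Option WU)) (s : Fin 14 → Fin N) (v : Fin N) : Prop :=
  TDefD.Tab iu N a WU.cl (Sum.elim s fun _ => v)

/-- The kernel set. -/
def uker (N : ℕ) (a : Arr (Option WU)) (v : Fin N) : Prop :=
  TDefD.Tab iu N a WU.ker fun _ => v

/-- `v` is the element number `j` of the kernel set. -/
def uix (N : ℕ) (a : Arr (Option WU)) (j v : Fin N) : Prop := TDefD.Tab iu N a WU.ix ![j, v]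

/-- Addition. -/
def upl (N : ℕ) (a : Arr (Option WU)) (q x y z : Fin N) : Prop :=
  TDefD.Tab iu N a WU.pl ![q, x, y, z]

/-- Multiplication. -/
def utm (N : ℕ) (a : Arr (Option WU)) (q x y z : Fin N) : Prop :=
  TDefD.Tab iu N a WU.tm ![q, x, y, z]

/-- The digit number `j` of `P` in base `q + 1` is `d`. -/
def udg (N : ℕ) (a : Arr (Option WU)) (q P j d : Fin N) : Prop :=
  TDefD.Tab iu N a WU.dg ![q, P, j, d]

section
variable {N : ℕ}

/-- The kernel set. -/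
def Ker4R (A : Fin N → Fin N → Prop) (cl : (Fin 14 → Fin N) → Fin N → Prop) (v : Fin N) : Prop :=
  KerR A cl v ∨ ∃ s, cl s v ∧
    ¬ ∃ a : Fin 4 → Fin N, Injective a ∧ ∀ i, cl s (a i) ∧ a i < v

/-- The rule for the elements in increasing order. -/
def IxR (P : Fin N → Prop) (I : Fin N → Fin N → Prop) (j v : Fin N) : Prop :=
  P v ∧ (((j : ℕ) = 0 ∧ ∀ u, u < v → ¬ P u) ∨
    ∃ j' u : Fin N, (j : ℕ) = j' + 1 ∧ I j' u ∧ u < v ∧ ∀ z, u < z → z < v → ¬ P z)

/-- The rule for addition. -/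
def PlR (PL : Fin N → Fin N → Fin N → Fin N → Prop) (q x y z : Fin N) : Prop :=
  ((x : ℕ) = 0 ∧ (y : ℕ) = 0 ∧ (z : ℕ) = 0) ∨
  ∃ t z' : Fin N, (((x : ℕ) = t + 1 ∧ PL q t y z') ∨ ((y : ℕ) = t + 1 ∧ PL q x t z')) ∧
    (((z : ℕ) = z' + 1 ∧ z' < q) ∨ (z' = q ∧ (z : ℕ) = 0))

/-- The rule for multiplication. -/
def TmR (PL TM : Fin N → Fin N → Fin N → Fin N → Prop) (q x y z : Fin N) : Prop :=
  ((y : ℕ) = 0 ∧ (z : ℕ) = 0) ∨
  ∃ t z' : Fin N, (y : ℕ) = t + 1 ∧ TM q x t z' ∧ PL q z' x z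

/-- The rule for digits. -/
def DgR (DG : Fin N → Fin N → Fin N → Fin N → Prop) (q P j d : Fin N) : Prop :=
  ((P : ℕ) = 0 ∧ (d : ℕ) = 0) ∨
  ∃ P' : Fin N, (P : ℕ) = P' + 1 ∧
    (((∀ i, i < j → DG q P' i q) ∧
      ((∃ d' : Fin N, DG q P' j d' ∧ d' < q ∧ (d : ℕ) = d' + 1) ∨
        (DG q P' j q ∧ (d : ℕ) = 0))) ∨
    ((∃ i, i < j ∧ ∃ d' : Fin N, d' < q ∧ DG q P' i d') ∧ DG q P' j d))

end

/-- The operators. -/
def RU : ∀ w : WU, ∀ N, Arr (Option WU) → (iu w → Fin N) → Prop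
  | .cl, N, M, E => StR (TDefD.Adj N M) (ucl N M) (fun i => E (.inl i)) (E (.inr ()))
  | .ker, N, M, E => Ker4R (TDefD.Adj N M) (ucl N M) (E ())
  | .ix, N, M, E => IxR (uker N M) (uix N M) (E 0) (E 1)
  | .pl, N, M, E => PlR (upl N M) (E 0) (E 1) (E 2) (E 3)
  | .tm, N, M, E => TmR (upl N M) (utm N M) (E 0) (E 1) (E 2) (E 3)
  | .dg, N, M, E => DgR (udg N M) (E 0) (E 1) (E 2) (E 3)

/-! ### Definability -/

section
variable {q : ℕ} {C : ℕ → Arr (Option WU) → Prop} {κ : Type} [DecidableEq κ]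

theorem ud_inj {m : ℕ} (f : Fin m → κ) :
    TDefD q iu C κ (fun _ _ e => Injective fun i => e (f i)) :=
  TDefD.forall' fun i => TDefD.forall' fun j =>
    (TDefD.eq (f i) (f j)).imp (TDefD.const (i = j))

theorem ud_cl (f : Fin 14 → κ) (x : κ) :
    TDefD q iu C κ (fun N a e => ucl N a (fun i => e (f i)) (e x)) := by
  refine (TDefD.tab WU.cl (Sum.elim f fun _ => x)).congr ?_
  intro N a e _
  unfold ucl
  refine iff_of_eq (congrArg (TDefD.Tab iu N a WU.cl) ?_)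
  funext i
  cases i <;> rfl

theorem ud_ker (x : κ) : TDefD q iu C κ (fun N a e => uker N a (e x)) :=
  TDefD.tab WU.ker fun _ => x

theorem ud_ix (j x : κ) : TDefD q iu C κ (fun N a e => uix N a (e j) (e x)) := by
  refine (TDefD.tab WU.ix ![j, x]).congr ?_
  intro N a e _
  unfold uix
  refine iff_of_eq (congrArg (TDefD.Tab iu N a WU.ix) ?_)
  funext i
  fin_cases i <;> rfl

theorem ud_pl (x y z t : κ) : TDefD q iu C κ (fun N a e => upl N a (e x) (e y) (e z) (e t)) := by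
  refine (TDefD.tab WU.pl ![x, y, z, t]).congr ?_
  intro N a e _
  unfold upl
  refine iff_of_eq (congrArg (TDefD.Tab iu N a WU.pl) ?_)
  funext i
  fin_cases i <;> rfl

theorem ud_tm (x y z t : κ) : TDefD q iu C κ (fun N a e => utm N a (e x) (e y) (e z) (e t)) := by
  refine (TDefD.tab WU.tm ![x, y, z, t]).congr ?_
  intro N a e _
  unfold utm
  refine iff_of_eq (congrArg (TDefD.Tab iu N a WU.tm) ?_)
  funext i
  fin_cases i <;> rfl

theorem ud_dg (x y z t : κ) : TDefD q iu C κ (fun N a e => udg N a (e x) (e y) (e z) (e t)) := by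
  refine (TDefD.tab WU.dg ![x, y, z, t]).congr ?_
  intro N a e _
  unfold udg
  refine iff_of_eq (congrArg (TDefD.Tab iu N a WU.dg) ?_)
  funext i
  fin_cases i <;> rfl

theorem ud_seed (f : Fin 14 → κ) :
    TDefD (q + 1) iu C κ (fun N a e => SeedR (TDefD.Adj N a) fun i => e (f i)) :=
  (ud_inj f).and (TDefD.forall' fun i => TDefD.forall' fun j =>
    (TDefD.const _).imp ((TDefD.const _).imp (TDefD.adj (f i) (f j))))

theorem ud_three (f : Fin 14 → κ) (x : κ) :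
    TDefD 4 iu C κ (fun N a e => ThreeR (TDefD.Adj N a) (ucl N a fun i => e (f i)) (e x)) := by
  have h : TDefD 1 iu C (κ ⊕ Fin 3)
      (fun N a e => (Injective fun i : Fin 3 => e (.inr i)) ∧
      ∀ i : Fin 3, ucl N a (fun z => e (.inl (f z))) (e (.inr i)) ∧
        TDefD.Adj N a (e (.inl x)) (e (.inr i))) :=
    (ud_inj _).and (TDefD.forall' fun i => (ud_cl _ _).and (TDefD.adj _ _))
  exact h.ex

theorem ud_gl (f g : Fin 14 → κ) :
    TDefD 20 iu C κ (fun N a e => GlR (TDefD.Adj N a) (ucl N a fun i => e (f i))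
      (ucl N a fun i => e (g i))) := by
  refine TDefD.exists' fun c => ?_
  obtain ⟨m, hm⟩ : ∃ m, (4 - (c : ℕ)).choose 2 = m := ⟨_, rfl⟩
  have hm6 : m ≤ 6 := by
    subst hm
    fin_cases c <;> decide
  rw [hm]
  have h : TDefD 1 iu C (((κ ⊕ Fin c) ⊕ Fin m) ⊕ Fin m) (fun N A e =>
      (Injective fun i : Fin c => e (.inl (.inl (.inr i)))) ∧
      (∀ l : Fin c, ucl N A (fun z => e (.inl (.inl (.inl (f z))))) (e (.inl (.inl (.inr l)))) ∧
          ucl N A (fun z => e (.inl (.inl (.inl (g z))))) (e (.inl (.inl (.inr l))))) ∧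
      (∀ i : Fin m, ucl N A (fun z => e (.inl (.inl (.inl (f z))))) (e (.inl (.inr i))) ∧
        ucl N A (fun z => e (.inl (.inl (.inl (g z))))) (e (.inr i)) ∧
        TDefD.Adj N A (e (.inl (.inr i))) (e (.inr i))) ∧
      (∀ (i : Fin m) (l : Fin c), e (.inl (.inr i)) ≠ e (.inl (.inl (.inr l))) ∧
        e (.inr i) ≠ e (.inl (.inl (.inr l)))) ∧
      (∀ i i' : Fin m, e (.inl (.inr i)) ≠ e (.inr i')) ∧
      (∀ i i' : Fin m, i ≠ i' →
        ¬ (e (.inl (.inr i)) = e (.inl (.inr i')) ∧ e (.inr i) = e (.inr i'))) ∧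
      (∀ i i' i'' : Fin m, i ≠ i' → i ≠ i'' → i' ≠ i'' →
        ¬ (e (.inl (.inr i)) = e (.inl (.inr i')) ∧ e (.inl (.inr i)) = e (.inl (.inr i'')))) ∧
      (∀ i i' i'' : Fin m, i ≠ i' → i ≠ i'' → i' ≠ i'' →
        ¬ (e (.inr i) = e (.inr i') ∧ e (.inr i) = e (.inr i'')))) := by
    refine (ud_inj _).and ((TDefD.forall' fun i => (ud_cl _ _).and (ud_cl _ _)).and
      ((TDefD.forall' fun i => (ud_cl _ _).and ((ud_cl _ _).and (TDefD.adj _ _))).and
      ((TDefD.forall' fun i => TDefD.forall' fun l => (TDefD.eq _ _).not.and (TDefD.eq _ _).not).and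
      ((TDefD.forall' fun i => TDefD.forall' fun i' => (TDefD.eq _ _).not).and
      ((TDefD.forall' fun i => TDefD.forall' fun i' => (TDefD.const _).imp
        ((TDefD.eq _ _).and (TDefD.eq _ _)).not).and
      ((TDefD.forall' fun i => TDefD.forall' fun i' => TDefD.forall' fun i'' =>
        (TDefD.const _).imp ((TDefD.const _).imp ((TDefD.const _).imp
          ((TDefD.eq _ _).and (TDefD.eq _ _)).not))).and
      (TDefD.forall' fun i => TDefD.forall' fun i' => TDefD.forall' fun i'' =>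
        (TDefD.const _).imp ((TDefD.const _).imp ((TDefD.const _).imp
          ((TDefD.eq _ _).and (TDefD.eq _ _)).not)))))))))
  refine h.ex.ex.ex.up ?_
  simp only [Fintype.card_fin]
  omega

theorem ud_st (f : Fin 14 → κ) (x : κ) :
    TDefD 40 iu C κ (fun N a e => StR (TDefD.Adj N a) (ucl N a) (fun i => e (f i)) (e x)) := by
  have h3 : TDefD 20 iu C (κ ⊕ Fin 14) (fun N a e =>
      GlR (TDefD.Adj N a) (ucl N a fun i => e (.inl (f i))) (ucl N a fun i => e (.inr i)) ∧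
      ucl N a (fun i => e (.inr i)) (e (.inl x))) :=
    (ud_gl _ _).and (ud_cl _ _)
  exact (ud_seed f).and ((TDefD.exists' fun i => TDefD.eq x (f i)).or
    (((ud_three f x).up (by omega)).or (h3.ex.up (by simp))))

theorem ud_few (r : ℕ) (x : κ) :
    TDefD (14 + r) iu C κ (fun N a e => ∃ s : Fin 14 → Fin N, ucl N a s (e x) ∧
      ¬ ∃ b : Fin r → Fin N, Injective b ∧ ∀ i, ucl N a s (b i) ∧ b i < e x) := by
  have h6 : TDefD 0 iu C ((κ ⊕ Fin 14) ⊕ Fin r) (fun N a e =>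
      (Injective fun i : Fin r => e (.inr i)) ∧ ∀ i : Fin r,
        ucl N a (fun z => e (.inl (.inr z))) (e (.inr i)) ∧ e (.inr i) < e (.inl (.inl x))) :=
    (ud_inj _).and (TDefD.forall' fun i => (ud_cl _ _).and (TDefD.lt _ _))
  have h7 : TDefD (0 + Fintype.card (Fin r)) iu C (κ ⊕ Fin 14) (fun N a e =>
      ucl N a (fun i => e (.inr i)) (e (.inl x)) ∧ ¬ ∃ b : Fin r → Fin N, Injective b ∧
        ∀ i, ucl N a (fun i => e (.inr i)) (b i) ∧ b i < e (.inl x)) :=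
    (ud_cl _ _).and h6.ex.not
  refine h7.ex.up ?_
  simp only [Fintype.card_fin]
  omega

theorem ud_kerR (x : κ) :
    TDefD 40 iu C κ (fun N a e => Ker4R (TDefD.Adj N a) (ucl N a) (e x)) := by
  have h1 : TDefD 0 iu C (κ ⊕ Fin 14) (fun N a e =>
      ¬ ucl N a (fun i => e (.inr i)) (e (.inl x))) := (ud_cl _ _).not
  have h2 : TDefD 0 iu C (((κ ⊕ Fin 14) ⊕ Fin 14) ⊕ Unit) (fun N a e =>
      ucl N a (fun i => e (.inl (.inl (.inr i)))) (e (.inr ())) ∧
        ¬ ucl N a (fun i => e (.inl (.inr i))) (e (.inr ()))) := (ud_cl _ _).and (ud_cl _ _).not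
  have h3 : TDefD 1 iu C ((κ ⊕ Fin 14) ⊕ Fin 14) (fun N a e =>
      ucl N a (fun i => e (.inl (.inr i))) (e (.inl (.inl x))) ∧
        ucl N a (fun i => e (.inr i)) (e (.inl (.inl x))) ∧
        ∃ u : Fin N, ucl N a (fun i => e (.inl (.inr i))) u ∧
          ¬ ucl N a (fun i => e (.inr i)) u) :=
    (ud_cl _ _).and ((ud_cl _ _).and h2.ex1)
  have h4 : TDefD 0 iu C ((κ ⊕ Unit) ⊕ Fin 14) (fun N a e =>
      ¬ (ucl N a (fun i => e (.inr i)) (e (.inl (.inl x))) ∧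
        ucl N a (fun i => e (.inr i)) (e (.inl (.inr ()))))) := ((ud_cl _ _).and (ud_cl _ _)).not
  have h5 : TDefD (0 + Fintype.card (Fin 14)) iu C (κ ⊕ Unit) (fun N a e =>
      TDefD.Adj N a (e (.inl x)) (e (.inr ())) ∧ ∀ s : Fin 14 → Fin N,
        ¬ (ucl N a s (e (.inl x)) ∧ ucl N a s (e (.inr ())))) :=
    ((TDefD.adj (q := 0) _ _).up (by simp)).and h4.all
  exact ((h1.all.up (by simp)).or ((h3.ex.ex.up (by simp)).or ((h5.ex1.up (by simp)).or
    ((ud_few 3 x).up (by omega))))).or ((ud_few 4 x).up (by omega))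

theorem ud_ixR (j x : κ) :
    TDefD 3 iu C κ (fun N a e => IxR (uker N a) (uix N a) (e j) (e x)) := by
  have h1 : TDefD 0 iu C (κ ⊕ Unit) (fun N a e =>
      e (.inr ()) < e (.inl x) → ¬ uker N a (e (.inr ()))) :=
    (TDefD.lt _ _).imp (ud_ker _).not
  have h2 : TDefD 0 iu C (((κ ⊕ Unit) ⊕ Unit) ⊕ Unit) (fun N a e =>
      e (.inl (.inr ())) < e (.inr ()) → e (.inr ()) < e (.inl (.inl (.inl x))) →
        ¬ uker N a (e (.inr ()))) :=
    (TDefD.lt _ _).imp ((TDefD.lt _ _).imp (ud_ker _).not)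
  have h3 : TDefD 1 iu C ((κ ⊕ Unit) ⊕ Unit) (fun N a e =>
      (e (.inl (.inl j)) : ℕ) = e (.inl (.inr ())) + 1 ∧
      uix N a (e (.inl (.inr ()))) (e (.inr ())) ∧ e (.inr ()) < e (.inl (.inl x)) ∧
        ∀ z : Fin N, e (.inr ()) < z → z < e (.inl (.inl x)) → ¬ uker N a z) :=
    (TDefD.isSucc _ _).and ((ud_ix _ _).and ((TDefD.lt _ _).and h2.all1))
  exact (ud_ker _).and (((TDefD.isZero (q := 2) _).and (h1.all1.up (by omega))).or h3.ex1.ex1)

theorem ud_plR (x y z t : κ) :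
    TDefD 3 iu C κ (fun N a e => PlR (upl N a) (e x) (e y) (e z) (e t)) := by
  have h : TDefD 1 iu C ((κ ⊕ Unit) ⊕ Unit) (fun N a e =>
      (((e (.inl (.inl y)) : ℕ) = e (.inl (.inr ())) + 1 ∧
          upl N a (e (.inl (.inl x))) (e (.inl (.inr ()))) (e (.inl (.inl z))) (e (.inr ()))) ∨
        ((e (.inl (.inl z)) : ℕ) = e (.inl (.inr ())) + 1 ∧
          upl N a (e (.inl (.inl x))) (e (.inl (.inl y))) (e (.inl (.inr ()))) (e (.inr ())))) ∧
      (((e (.inl (.inl t)) : ℕ) = e (.inr ()) + 1 ∧ e (.inr ()) < e (.inl (.inl x))) ∨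
        (e (.inr ()) = e (.inl (.inl x)) ∧ (e (.inl (.inl t)) : ℕ) = 0))) :=
    (((TDefD.isSucc _ _).and (ud_pl _ _ _ _)).or ((TDefD.isSucc _ _).and (ud_pl _ _ _ _))).and
      (((TDefD.isSucc _ _).and (TDefD.lt _ _)).or ((TDefD.eq _ _).and (TDefD.isZero _)))
  exact ((TDefD.isZero (q := 2) _).and ((TDefD.isZero _).and (TDefD.isZero _))).or h.ex1.ex1

theorem ud_tmR (x y z t : κ) :
    TDefD 3 iu C κ (fun N a e => TmR (upl N a) (utm N a) (e x) (e y) (e z) (e t)) := by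
  have h : TDefD 1 iu C ((κ ⊕ Unit) ⊕ Unit) (fun N a e =>
      (e (.inl (.inl z)) : ℕ) = e (.inl (.inr ())) + 1 ∧
        utm N a (e (.inl (.inl x))) (e (.inl (.inl y))) (e (.inl (.inr ()))) (e (.inr ())) ∧
        upl N a (e (.inl (.inl x))) (e (.inr ())) (e (.inl (.inl y))) (e (.inl (.inl t)))) :=
    (TDefD.isSucc _ _).and ((ud_tm _ _ _ _).and (ud_pl _ _ _ _))
  exact ((TDefD.isZero (q := 2) _).and (TDefD.isZero _)).or h.ex1.ex1

theorem ud_dgR (x y z t : κ) :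
    TDefD 5 iu C κ (fun N a e => DgR (udg N a) (e x) (e y) (e z) (e t)) := by
  have h1 : TDefD 1 iu C ((κ ⊕ Unit) ⊕ Unit) (fun N a e =>
      e (.inr ()) < e (.inl (.inl z)) →
        udg N a (e (.inl (.inl x))) (e (.inl (.inr ()))) (e (.inr ())) (e (.inl (.inl x)))) :=
    (TDefD.lt _ _).imp (ud_dg _ _ _ _)
  have h2 : TDefD 1 iu C ((κ ⊕ Unit) ⊕ Unit) (fun N a e =>
      udg N a (e (.inl (.inl x))) (e (.inl (.inr ()))) (e (.inl (.inl z))) (e (.inr ())) ∧
        e (.inr ()) < e (.inl (.inl x)) ∧ (e (.inl (.inl t)) : ℕ) = e (.inr ()) + 1) :=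
    (ud_dg _ _ _ _).and ((TDefD.lt _ _).and (TDefD.isSucc _ _))
  have h3 : TDefD 1 iu C (((κ ⊕ Unit) ⊕ Unit) ⊕ Unit) (fun N a e =>
      e (.inr ()) < e (.inl (.inl (.inl x))) ∧
        udg N a (e (.inl (.inl (.inl x)))) (e (.inl (.inl (.inr ())))) (e (.inl (.inr ())))
          (e (.inr ()))) :=
    (TDefD.lt _ _).and (ud_dg _ _ _ _)
  have h4 : TDefD 2 iu C ((κ ⊕ Unit) ⊕ Unit) (fun N a e =>
      e (.inr ()) < e (.inl (.inl z)) ∧ ∃ d' : Fin N, d' < e (.inl (.inl x)) ∧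
        udg N a (e (.inl (.inl x))) (e (.inl (.inr ()))) (e (.inr ())) d') :=
    (TDefD.lt _ _).and h3.ex1
  have h5 : TDefD 3 iu C (κ ⊕ Unit) (fun N a e => (e (.inl y) : ℕ) = e (.inr ()) + 1 ∧
      (((∀ i, i < e (.inl z) → udg N a (e (.inl x)) (e (.inr ())) i (e (.inl x))) ∧
        ((∃ d' : Fin N, udg N a (e (.inl x)) (e (.inr ())) (e (.inl z)) d' ∧
            d' < e (.inl x) ∧ (e (.inl t) : ℕ) = d' + 1) ∨
          (udg N a (e (.inl x)) (e (.inr ())) (e (.inl z)) (e (.inl x)) ∧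
            (e (.inl t) : ℕ) = 0))) ∨
      ((∃ i, i < e (.inl z) ∧ ∃ d' : Fin N, d' < e (.inl x) ∧
          udg N a (e (.inl x)) (e (.inr ())) i d') ∧
        udg N a (e (.inl x)) (e (.inr ())) (e (.inl z)) (e (.inl t))))) :=
    (TDefD.isSucc _ _).and ((((h1.all1.up (by omega)).and (((h2.ex1.up (by omega))).or
      ((ud_dg _ _ _ _).and (TDefD.isZero _))))).or ((h4.ex1.up (by omega)).and (ud_dg _ _ _ _)))
  exact ((TDefD.isZero (q := 4) _).and (TDefD.isZero _)).or (h5.ex1.up (by omega))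

theorem ud_RU (w : WU) : TDefD 40 iu (fun _ _ => True) (iu w) (RU w) := by
  cases w with
  | cl => exact ud_st (κ := Fin 14 ⊕ Unit) Sum.inl (Sum.inr ())
  | ker => exact ud_kerR (κ := Unit) ()
  | ix => exact (ud_ixR (κ := Fin 2) 0 1).up (by omega)
  | pl => exact (ud_plR (κ := Fin 4) 0 1 2 3).up (by omega)
  | tm => exact (ud_tmR (κ := Fin 4) 0 1 2 3).up (by omega)
  | dg => exact (ud_dgR (κ := Fin 4) 0 1 2 3).up (by omega)

end

end Pool.Agent.Lib.MP_37c7bf_co_h74dm
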