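import Pool.Agent.Lib.FOLFPd_h74.System
import Pool.Agent.Lib.MP_37c7bf_co_h77dm.Canon
import Pool.Agent.Lib.MP_37c7bf_co_h26dm.Machine

/-!
# The Turing machine for the canonical kernel, in fixed-parameter time

The clusters, the canonical kernel set and its elements in increasing order are a stratified system
of fixed points; the depth of all formulas is bounded by an absolute constant.
-/

namespace Pool.Agent.Lib.MP_37c7bf_co_h74dm

open Pool.Agent.Lib.PolyTM Pool.Agent.Lib.FOLFP Pool.Agent.Lib.FOLFPd Function Turing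

open Pool.Agent.Lib.MP_37c7bf_co_h77dm (InC Ker IsKer AccK)
open Pool.Agent.Lib.MP_37c7bf_co_h26dm (ThreeR GlR StR stR_iff)
open Pool.Agent.Lib.MP_37c7bf_co_Poly (SeedR)

/-- The arrays: the clusters, the kernel set, and its elements in increasing order. -/
inductive WK (K : ℕ)
  | cl
  | ker
  | ord (i : Fin (K + 1))
  deriving DecidableEq, Fintype

/-- The index places of the arrays. -/
abbrev ik (K : ℕ) : WK K → Type
  | .cl => Fin 14 ⊕ Unit
  | .ker => Unit
  | .ord _ => Unit

instance ikFintype (K : ℕ) : ∀ w, Fintype (ik K w)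
  | .cl => inferInstanceAs (Fintype (Fin 14 ⊕ Unit))
  | .ker => inferInstanceAs (Fintype Unit)
  | .ord _ => inferInstanceAs (Fintype Unit)

instance ikDecidableEq (K : ℕ) : ∀ w, DecidableEq (ik K w)
  | .cl => inferInstanceAs (DecidableEq (Fin 14 ⊕ Unit))
  | .ker => inferInstanceAs (DecidableEq Unit)
  | .ord _ => inferInstanceAs (DecidableEq Unit)

variable {K : ℕ}

/-- The cluster table. -/
def tcl (N : ℕ) (a : Arr (Option (WK K))) (s : Fin 14 → Fin N) (v : Fin N) : Prop :=
  TDefD.Tab (ik K) N a WK.cl (Sum.elim s fun _ => v)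

/-- The kernel set. -/
def tker (N : ℕ) (a : Arr (Option (WK K))) (v : Fin N) : Prop :=
  TDefD.Tab (ik K) N a WK.ker fun _ => v

/-- The element number `i` of the kernel set. -/
def tord (N : ℕ) (a : Arr (Option (WK K))) (i : Fin (K + 1)) (v : Fin N) : Prop :=
  TDefD.Tab (ik K) N a (WK.ord i) fun _ => v

/-- `Ker` for a relation. -/
def KerR {N : ℕ} (A : Fin N → Fin N → Prop) (cl : (Fin 14 → Fin N) → Fin N → Prop) (v : Fin N) :
    Prop :=
  (∀ s, ¬ cl s v) ∨
  (∃ s t, cl s v ∧ cl t v ∧ ∃ u, cl s u ∧ ¬ cl t u) ∨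
  (∃ u, A v u ∧ ∀ s, ¬ (cl s v ∧ cl s u)) ∨
  ∃ s, cl s v ∧ ¬ ∃ a : Fin 3 → Fin N, Injective a ∧ ∀ i, cl s (a i) ∧ a i < v

/-- The rule for the elements in increasing order. -/
def OrdR {N : ℕ} (P : Fin N → Prop) (O : Fin (K + 1) → Fin N → Prop) (i : Fin (K + 1))
    (v : Fin N) : Prop :=
  P v ∧ (((i : ℕ) = 0 ∧ ∀ u, u < v → ¬ P u) ∨
    ∃ j : Fin (K + 1), (j : ℕ) + 1 = i ∧ ∃ u, O j u ∧ u < v ∧ ∀ z, u < z → z < v → ¬ P z)

/-- Small graphs. -/
def SmallT (gs : ∀ m, SimpleGraph (Fin m) → Prop) {N : ℕ} (A : Fin N → Fin N → Prop) : Prop :=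
  ∃ n : Fin 4, ∃ H : SimpleGraph (Fin n), gs n H ∧ ∃ x : Fin n → Fin N,
    (∀ i j, i < j → x i < x j) ∧ (∀ v, ∃ l, v = x l) ∧ ∀ i j, H.Adj i j ↔ A (x i) (x j)

/-- The acceptance condition. -/
def AccO (gr : ∀ m, SimpleGraph (Fin m) → Prop) {N : ℕ} (A : Fin N → Fin N → Prop)
    (cl : (Fin 14 → Fin N) → Fin N → Prop) (O : Fin (K + 1) → Fin N → Prop) : Prop :=
  ∃ (m : Fin (K + 1)) (H : SimpleGraph (Fin m)), gr m H ∧
    (∀ i : Fin (K + 1), i < m → ∃ v, O i v) ∧ (∀ v, ¬ O m v) ∧
    ∀ a b : Fin m, H.Adj a b ↔ a ≠ b ∧ ∃ u v, O (a.castLE (by omega)) u ∧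
      O (b.castLE (by omega)) v ∧ (A u v ∨ ∃ s, cl s u ∧ cl s v)

/-- The operators. -/
def RK : ∀ w : WK K, ∀ N, Arr (Option (WK K)) → (ik K w → Fin N) → Prop
  | .cl, N, M, E => StR (TDefD.Adj N M) (tcl N M) (fun i => E (.inl i)) (E (.inr ()))
  | .ker, N, M, E => KerR (TDefD.Adj N M) (tcl N M) (E ())
  | .ord i, N, M, E => OrdR (tker N M) (tord N M) i (E ())

/-! ### Definability -/

section
variable {q : ℕ} {C : ℕ → Arr (Option (WK K)) → Prop} {κ : Type} [DecidableEq κ]

theorem td_inj {m : ℕ} (f : Fin m → κ) :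
    TDefD q (ik K) C κ (fun _ _ e => Injective fun i => e (f i)) :=
  TDefD.forall' fun i => TDefD.forall' fun j =>
    (TDefD.eq (f i) (f j)).imp (TDefD.const (i = j))

theorem td_cl (f : Fin 14 → κ) (x : κ) :
    TDefD q (ik K) C κ (fun N a e => tcl N a (fun i => e (f i)) (e x)) := by
  refine (TDefD.tab WK.cl (Sum.elim f fun _ => x)).congr ?_
  intro N a e _
  unfold tcl
  refine iff_of_eq (congrArg (TDefD.Tab (ik K) N a WK.cl) ?_)
  funext i
  cases i <;> rfl

theorem td_ker (x : κ) : TDefD q (ik K) C κ (fun N a e => tker N a (e x)) :=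
  TDefD.tab WK.ker fun _ => x

theorem td_ord (i : Fin (K + 1)) (x : κ) :
    TDefD q (ik K) C κ (fun N a e => tord N a i (e x)) :=
  TDefD.tab (WK.ord i) fun _ => x

theorem td_seed (f : Fin 14 → κ) :
    TDefD (q + 1) (ik K) C κ (fun N a e => SeedR (TDefD.Adj N a) fun i => e (f i)) :=
  (td_inj f).and (TDefD.forall' fun i => TDefD.forall' fun j =>
    (TDefD.const _).imp ((TDefD.const _).imp (TDefD.adj (f i) (f j))))

theorem td_three (f : Fin 14 → κ) (x : κ) :
    TDefD 4 (ik K) C κ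
      (fun N a e => ThreeR (TDefD.Adj N a) (tcl N a fun i => e (f i)) (e x)) := by
  have h : TDefD 1 (ik K) C (κ ⊕ Fin 3)
      (fun N a e => (Injective fun i : Fin 3 => e (.inr i)) ∧
      ∀ i : Fin 3, tcl N a (fun z => e (.inl (f z))) (e (.inr i)) ∧
        TDefD.Adj N a (e (.inl x)) (e (.inr i))) :=
    (td_inj _).and (TDefD.forall' fun i => (td_cl _ _).and (TDefD.adj _ _))
  exact h.ex

theorem td_gl (f g : Fin 14 → κ) :
    TDefD 20 (ik K) C κ (fun N a e => GlR (TDefD.Adj N a) (tcl N a fun i => e (f i))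
      (tcl N a fun i => e (g i))) := by
  refine TDefD.exists' fun c => ?_
  obtain ⟨m, hm⟩ : ∃ m, (4 - (c : ℕ)).choose 2 = m := ⟨_, rfl⟩
  have hm6 : m ≤ 6 := by
    subst hm
    fin_cases c <;> decide
  rw [hm]
  have h : TDefD 1 (ik K) C (((κ ⊕ Fin c) ⊕ Fin m) ⊕ Fin m) (fun N A e =>
      (Injective fun i : Fin c => e (.inl (.inl (.inr i)))) ∧
      (∀ l : Fin c, tcl N A (fun z => e (.inl (.inl (.inl (f z))))) (e (.inl (.inl (.inr l)))) ∧
          tcl N A (fun z => e (.inl (.inl (.inl (g z))))) (e (.inl (.inl (.inr l))))) ∧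
      (∀ i : Fin m, tcl N A (fun z => e (.inl (.inl (.inl (f z))))) (e (.inl (.inr i))) ∧
        tcl N A (fun z => e (.inl (.inl (.inl (g z))))) (e (.inr i)) ∧
        TDefD.Adj N A (e (.inl (.inr i))) (e (.inr i))) ∧
      (∀ (i : Fin m) (l : Fin c), e (.inl (.inr i)) ≠ e (.inl (.inl (.inr l))) ∧
        e (.inr i) ≠ e (.inl (.inl (.inr l)))) ∧
      (∀ i i' : Fin m, e (.inl (.inr i)) ≠ e (.inr i')) ∧
      (∀ i i' : Fin m, i ≠ i' →
        ¬ (e (.inl (.inr i)) = e (.inl (.inr i')) ∧ e (.inr i) = e (.inr i'))) ∧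
      (∀ i i' i'' : Fin m, i ≠ i' → i ≠ i'' → i' ≠ i'' →
        ¬ (e (.inl (.inr i)) = e (.inl (.inr i')) ∧ e (.inl (.inr i)) = e (.inl (.inr i'')))) ∧
      (∀ i i' i'' : Fin m, i ≠ i' → i ≠ i'' → i' ≠ i'' →
        ¬ (e (.inr i) = e (.inr i') ∧ e (.inr i) = e (.inr i'')))) := by
    refine (td_inj _).and ((TDefD.forall' fun i => (td_cl _ _).and (td_cl _ _)).and
      ((TDefD.forall' fun i => (td_cl _ _).and ((td_cl _ _).and (TDefD.adj _ _))).and
      ((TDefD.forall' fun i => TDefD.forall' fun l => (TDefD.eq _ _).not.and (TDefD.eq _ _).not).and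
      ((TDefD.forall' fun i => TDefD.forall' fun i' => (TDefD.eq _ _).not).and
      ((TDefD.forall' fun i => TDefD.forall' fun i' => (TDefD.const _).imp
        ((TDefD.eq _ _).and (TDefD.eq _ _)).not).and
      ((TDefD.forall' fun i => TDefD.forall' fun i' => TDefD.forall' fun i'' =>
        (TDefD.const _).imp ((TDefD.const _).imp ((TDefD.const _).imp
          ((TDefD.eq _ _).and (TDefD.eq _ _)).not))).and
      (TDefD.forall' fun i => TDefD.forall' fun i' => TDefD.forall' fun i'' =>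
        (TDefD.const _).imp ((TDefD.const _).imp ((TDefD.const _).imp
          ((TDefD.eq _ _).and (TDefD.eq _ _)).not)))))))))
  refine h.ex.ex.ex.up ?_
  simp only [Fintype.card_fin]
  omega

theorem td_st (f : Fin 14 → κ) (x : κ) :
    TDefD 40 (ik K) C κ
      (fun N a e => StR (TDefD.Adj N a) (tcl N a) (fun i => e (f i)) (e x)) := by
  have h3 : TDefD 20 (ik K) C (κ ⊕ Fin 14) (fun N a e =>
      GlR (TDefD.Adj N a) (tcl N a fun i => e (.inl (f i))) (tcl N a fun i => e (.inr i)) ∧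
      tcl N a (fun i => e (.inr i)) (e (.inl x))) :=
    (td_gl _ _).and (td_cl _ _)
  exact (td_seed f).and ((TDefD.exists' fun i => TDefD.eq x (f i)).or
    (((td_three f x).up (by omega)).or (h3.ex.up (by simp))))

theorem td_kerR (x : κ) :
    TDefD 40 (ik K) C κ (fun N a e => KerR (TDefD.Adj N a) (tcl N a) (e x)) := by
  have h1 : TDefD 0 (ik K) C (κ ⊕ Fin 14) (fun N a e =>
      ¬ tcl N a (fun i => e (.inr i)) (e (.inl x))) := (td_cl _ _).not
  have h2 : TDefD 0 (ik K) C (((κ ⊕ Fin 14) ⊕ Fin 14) ⊕ Unit) (fun N a e =>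
      tcl N a (fun i => e (.inl (.inl (.inr i)))) (e (.inr ())) ∧
        ¬ tcl N a (fun i => e (.inl (.inr i))) (e (.inr ()))) := (td_cl _ _).and (td_cl _ _).not
  have h3 : TDefD 1 (ik K) C ((κ ⊕ Fin 14) ⊕ Fin 14) (fun N a e =>
      tcl N a (fun i => e (.inl (.inr i))) (e (.inl (.inl x))) ∧
        tcl N a (fun i => e (.inr i)) (e (.inl (.inl x))) ∧
        ∃ u : Fin N, tcl N a (fun i => e (.inl (.inr i))) u ∧
          ¬ tcl N a (fun i => e (.inr i)) u) :=
    (td_cl _ _).and ((td_cl _ _).and h2.ex1)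
  have h4 : TDefD 0 (ik K) C ((κ ⊕ Unit) ⊕ Fin 14) (fun N a e =>
      ¬ (tcl N a (fun i => e (.inr i)) (e (.inl (.inl x))) ∧
        tcl N a (fun i => e (.inr i)) (e (.inl (.inr ()))))) := ((td_cl _ _).and (td_cl _ _)).not
  have h5 : TDefD (0 + Fintype.card (Fin 14)) (ik K) C (κ ⊕ Unit) (fun N a e =>
      TDefD.Adj N a (e (.inl x)) (e (.inr ())) ∧ ∀ s : Fin 14 → Fin N,
        ¬ (tcl N a s (e (.inl x)) ∧ tcl N a s (e (.inr ())))) :=
    ((TDefD.adj (q := 0) _ _).up (by simp)).and h4.all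
  have h6 : TDefD 0 (ik K) C ((κ ⊕ Fin 14) ⊕ Fin 3) (fun N a e =>
      (Injective fun i : Fin 3 => e (.inr i)) ∧ ∀ i : Fin 3,
        tcl N a (fun z => e (.inl (.inr z))) (e (.inr i)) ∧ e (.inr i) < e (.inl (.inl x))) :=
    (td_inj _).and (TDefD.forall' fun i => (td_cl _ _).and (TDefD.lt _ _))
  have h7 : TDefD (0 + Fintype.card (Fin 3)) (ik K) C (κ ⊕ Fin 14) (fun N a e =>
      tcl N a (fun i => e (.inr i)) (e (.inl x)) ∧ ¬ ∃ b : Fin 3 → Fin N, Injective b ∧
        ∀ i, tcl N a (fun i => e (.inr i)) (b i) ∧ b i < e (.inl x)) :=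
    (td_cl _ _).and h6.ex.not
  exact (h1.all.up (by simp)).or ((h3.ex.ex.up (by simp)).or ((h5.ex1.up (by simp)).or
    (h7.ex.up (by simp))))

theorem td_ordR (i : Fin (K + 1)) (x : κ) :
    TDefD 2 (ik K) C κ (fun N a e => OrdR (tker N a) (tord N a) i (e x)) := by
  have h1 : TDefD 0 (ik K) C (κ ⊕ Unit) (fun N a e =>
      e (.inr ()) < e (.inl x) → ¬ tker N a (e (.inr ()))) :=
    (TDefD.lt _ _).imp (td_ker _).not
  have h2 : TDefD 0 (ik K) C ((κ ⊕ Unit) ⊕ Unit) (fun N a e =>
      e (.inl (.inr ())) < e (.inr ()) → e (.inr ()) < e (.inl (.inl x)) →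
        ¬ tker N a (e (.inr ()))) :=
    (TDefD.lt _ _).imp ((TDefD.lt _ _).imp (td_ker _).not)
  have h3 : ∀ j : Fin (K + 1), TDefD 1 (ik K) C (κ ⊕ Unit) (fun N a e =>
      tord N a j (e (.inr ())) ∧ e (.inr ()) < e (.inl x) ∧
        ∀ z : Fin N, e (.inr ()) < z → z < e (.inl x) → ¬ tker N a z) := fun j =>
    (td_ord _ _).and ((TDefD.lt _ _).and h2.all1)
  exact (td_ker _).and (((TDefD.const _).and (h1.all1.up (by omega))).or
    (TDefD.exists' fun j => (TDefD.const _).and (h3 j).ex1))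

theorem td_small (gs : ∀ m, SimpleGraph (Fin m) → Prop) :
    TDefD 5 (ik K) C κ (fun N a _ => SmallT gs (TDefD.Adj N a)) := by
  refine TDefD.exists' fun n => TDefD.exists' fun H => (TDefD.const _).and ?_
  have h1 : TDefD 1 (ik K) C (κ ⊕ Fin n) (fun N _ e => ∀ v : Fin N, ∃ l : Fin n,
      v = e (.inr l)) := by
    have h : TDefD 0 (ik K) C ((κ ⊕ Fin n) ⊕ Unit) (fun _ _ e => ∃ l : Fin n,
      e (.inr ()) = e (.inl (.inr l))) := TDefD.exists' fun l => TDefD.eq _ _
    exact h.all1
  have h : TDefD 1 (ik K) C (κ ⊕ Fin n) (fun N a e =>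
      (∀ i j : Fin n, i < j → e (.inr i) < e (.inr j)) ∧ (∀ v : Fin N, ∃ l : Fin n,
        v = e (.inr l)) ∧ ∀ i j : Fin n, H.Adj i j ↔ TDefD.Adj N a (e (.inr i)) (e (.inr j))) :=
    (TDefD.forall' fun i => TDefD.forall' fun j => (TDefD.const _).imp (TDefD.lt _ _)).and
      (h1.and (TDefD.forall' fun i => TDefD.forall' fun j => (TDefD.const _).iff (TDefD.adj _ _)))
  refine h.ex.up ?_
  simp only [Fintype.card_fin]
  omega

theorem td_lt : TDefD 5 (ik K) C κ (fun N _ _ => 3 < N) := by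
  have h : TDefD 0 (ik K) C (κ ⊕ Fin 4) (fun _ _ e => Injective fun i : Fin 4 => e (.inr i)) :=
    td_inj _
  refine (h.ex.up (by simp)).congr ?_
  intro N a e _
  constructor
  · rintro ⟨t, ht⟩
    have h1 := Fintype.card_le_of_injective _ ht
    simp only [Fintype.card_fin] at h1
    omega
  · intro h
    exact ⟨fun i => ⟨i, by omega⟩, fun i j hij => by
      have := congrArg Fin.val hij
      exact Fin.ext this⟩

theorem td_accO (gr : ∀ m, SimpleGraph (Fin m) → Prop) :
    TDefD 20 (ik K) C κ (fun N a _ => AccO gr (TDefD.Adj N a) (tcl N a) (tord N a)) := by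
  refine TDefD.exists' fun m => TDefD.exists' fun H => (TDefD.const _).and ?_
  have h1 : ∀ i : Fin (K + 1), TDefD 0 (ik K) C (κ ⊕ Unit) (fun N a e =>
      tord N a i (e (.inr ()))) := fun i => td_ord _ _
  have h2 : TDefD 0 (ik K) C (((κ ⊕ Unit) ⊕ Unit) ⊕ Fin 14) (fun N a e =>
      tcl N a (fun i => e (.inr i)) (e (.inl (.inl (.inr ())))) ∧
        tcl N a (fun i => e (.inr i)) (e (.inl (.inr ())))) := (td_cl _ _).and (td_cl _ _)
  have h3 : ∀ i j : Fin (K + 1), TDefD (0 + Fintype.card (Fin 14)) (ik K) C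
      ((κ ⊕ Unit) ⊕ Unit) (fun N a e =>
      tord N a i (e (.inl (.inr ()))) ∧ tord N a j (e (.inr ())) ∧
        (TDefD.Adj N a (e (.inl (.inr ()))) (e (.inr ())) ∨ ∃ s : Fin 14 → Fin N,
          tcl N a s (e (.inl (.inr ()))) ∧ tcl N a s (e (.inr ())))) := fun i j =>
    (td_ord _ _).and ((td_ord _ _).and (((TDefD.adj (q := 0) _ _).up (by simp)).or h2.ex))
  refine ((TDefD.forall' fun i => (TDefD.const _).imp ((h1 i).ex1.up (by omega)))).and
    (((h1 m).not.all1.up (by omega)).and (TDefD.forall' fun a => TDefD.forall' fun b =>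
      (TDefD.const _).iff ((TDefD.const _).and ((h3 _ _).ex1.ex1.up (by simp)))))

theorem td_RK (w : WK K) : TDefD 40 (ik K) (fun _ _ => True) (ik K w) (RK w) := by
  cases w with
  | cl => exact td_st (κ := Fin 14 ⊕ Unit) Sum.inl (Sum.inr ())
  | ker => exact td_kerR (κ := Unit) ()
  | ord i => exact (td_ordR (κ := Unit) i ()).up (by omega)

end

/-! ### The order of the arrays -/

/-- The position of an array. -/
def rk : WK K → ℕ
  | .cl => 0
  | .ker => 1
  | .ord i => i + 2

/-- The arrays in the order of computation. -/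
def enumW (i : Fin (K + 3)) : WK K :=
  if (i : ℕ) = 0 then .cl else if (i : ℕ) = 1 then .ker else .ord ⟨i - 2, by omega⟩

theorem rk_enumW (i : Fin (K + 3)) : rk (enumW i) = i := by
  unfold enumW
  split_ifs with h0 h1
  · exact h0.symm
  · exact h1.symm
  · simp only [rk]
    omega

theorem enumW_injective : Injective (enumW : Fin (K + 3) → WK K) := by
  intro i j h
  have := congrArg rk h
  rw [rk_enumW, rk_enumW] at this
  exact Fin.ext this

theorem exists_enumW (w : WK K) : ∃ i : Fin (K + 3), (i : ℕ) = rk w ∧ w = enumW i := by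
  have hlt : rk w < K + 3 := by
    cases w with
    | cl => simp [rk]
    | ker => simp [rk]
    | ord i => simp only [rk]; omega
  refine ⟨⟨rk w, hlt⟩, rfl, ?_⟩
  cases w with
  | cl => rfl
  | ker => rfl
  | ord i => simp [enumW, rk]

theorem RK_congr (w : WK K) (N : ℕ) (M M' : Arr (Option (WK K))) (h0 : M none = M' none)
    (h : ∀ w', rk w' ≤ rk w → M (some w') = M' (some w')) (E : ik K w → Fin N) :
    RK w N M E → RK w N M' E := by
  have hadj : TDefD.Adj N M = TDefD.Adj N M' := adj_congr h0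
  have hcl : (0 ≤ rk w → tcl N M = tcl N M') := by
    intro _
    funext s v
    unfold tcl
    rw [tab_congr (h .cl (by simp [rk]))]
  have hker : (1 ≤ rk w → tker N M = tker N M') := by
    intro h1
    funext v
    unfold tker
    rw [tab_congr (h .ker (by simpa [rk] using h1))]
  cases w with
  | cl =>
    simp only [RK]
    rw [hadj, hcl (Nat.zero_le _)]
    exact id
  | ker =>
    simp only [RK]
    rw [hadj, hcl (Nat.zero_le _)]
    exact id
  | ord i =>
    simp only [RK, OrdR]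
    rw [hker (by simp [rk])]
    rintro ⟨h1, h2 | ⟨j, hj, u, hu, h3⟩⟩
    · exact ⟨h1, Or.inl h2⟩
    · refine ⟨h1, Or.inr ⟨j, hj, u, ?_, h3⟩⟩
      unfold tord at hu ⊢
      rwa [← tab_congr (h (.ord j) (by simp only [rk]; omega))]

/-! ### Semantics -/

theorem smallT_iff {N : ℕ} (G : SimpleGraph (Fin N)) (gs : ∀ m, SimpleGraph (Fin m) → Prop) :
    SmallT gs G.Adj ↔ N ≤ 3 ∧ gs N G := by
  constructor
  · rintro ⟨n, H, hg, x, hmono, hsurj, hadj⟩
    have hx : StrictMono x := fun i j h => hmono i j h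
    have hs : Surjective x := fun v => by
      obtain ⟨l, hl⟩ := hsurj v
      exact ⟨l, hl.symm⟩
    have hN : N = n := by
      have := Fintype.card_of_bijective ⟨hx.injective, hs⟩
      simpa using this.symm
    subst hN
    have hid : x = id := (hx.range_inj strictMono_id).1 (by
      rw [hs.range_eq, Set.range_id])
    have hG : G = H := by
      ext i j
      rw [hadj i j, hid]
      rfl
    subst hG
    exact ⟨by omega, hg⟩
  · rintro ⟨hN, hg⟩
    exact ⟨⟨N, by omega⟩, G, hg, id, fun i j h => h, fun v => ⟨v, rfl⟩, fun i j => Iff.rfl⟩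

/-- The tables `O i` contain the elements in increasing order. -/
theorem ord_iff {N m : ℕ} (P : Fin N → Prop) (w : Fin m → Fin N) (hw : StrictMono w)
    (hP : ∀ v, P v ↔ ∃ l, w l = v) (O : Fin (K + 1) → Fin N → Prop)
    (hO : ∀ i v, O i v ↔ OrdR P O i v) :
    ∀ (i : ℕ) (hi : i < K + 1) (v : Fin N), O ⟨i, hi⟩ v ↔ ∃ h : i < m, w ⟨i, h⟩ = v := by
  intro i
  induction i with
  | zero =>
    intro hi v
    rw [hO, OrdR, hP]
    constructor
    · rintro ⟨⟨l, rfl⟩, h⟩
      rcases h with ⟨-, h⟩ | ⟨j, hj, -⟩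
      · have hm : 0 < m := by have := l.2; omega
        refine ⟨hm, ?_⟩
        by_contra hne
        have hlt : (⟨0, hm⟩ : Fin m) < l := by
          rw [Fin.lt_def]
          rcases Nat.eq_zero_or_pos (l : ℕ) with h0 | h0
          · exact absurd (congrArg w (Fin.ext h0.symm)) hne
          · exact h0
        exact h _ (hw hlt) ((hP _).2 ⟨_, rfl⟩)
      · exact absurd hj (by simp)
    · rintro ⟨h, rfl⟩
      refine ⟨⟨_, rfl⟩, Or.inl ⟨rfl, fun u hu hPu => ?_⟩⟩
      obtain ⟨l, rfl⟩ := (hP u).1 hPu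
      have := hw.lt_iff_lt.1 hu
      rw [Fin.lt_def] at this
      exact absurd this (Nat.not_lt_zero _)
  | succ i ih =>
    intro hi v
    rw [hO, OrdR, hP]
    constructor
    · rintro ⟨⟨l, rfl⟩, h⟩
      rcases h with ⟨h0, -⟩ | ⟨j, hj, u, hu, huv, hbet⟩
      · exact absurd h0 (by simp)
      · have hj' : j = ⟨i, by omega⟩ := by
          apply Fin.ext
          simpa using hj
        rw [hj', ih] at hu
        obtain ⟨him, rfl⟩ := hu
        have hil := hw.lt_iff_lt.1 huv
        rw [Fin.lt_def] at hil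
        have hil' : i < (l : ℕ) := hil
        have hlm := l.2
        have hm : i + 1 < m := by omega
        refine ⟨hm, ?_⟩
        by_contra hne
        have hlt : (⟨i + 1, hm⟩ : Fin m) < l := by
          rw [Fin.lt_def]
          show i + 1 < (l : ℕ)
          rcases Nat.lt_or_ge (i + 1) l with h0 | h0
          · exact h0
          · have h1 : (l : ℕ) = i + 1 := by omega
            exact absurd (congrArg w (Fin.ext h1.symm)) hne
        refine hbet (w ⟨i + 1, hm⟩) (hw ?_) (hw hlt) ((hP _).2 ⟨_, rfl⟩)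
        rw [Fin.lt_def]
        exact Nat.lt_succ_self i
    · rintro ⟨h, rfl⟩
      refine ⟨⟨_, rfl⟩, Or.inr ⟨⟨i, by omega⟩, rfl, w ⟨i, by omega⟩, ?_, hw ?_, ?_⟩⟩
      · rw [ih]
        exact ⟨by omega, rfl⟩
      · rw [Fin.lt_def]
        exact Nat.lt_succ_self i
      · intro z hz1 hz2 hz
        obtain ⟨l, rfl⟩ := (hP z).1 hz
        have h1 := hw.lt_iff_lt.1 hz1
        have h2 := hw.lt_iff_lt.1 hz2
        rw [Fin.lt_def] at h1 h2
        have h1' : i < (l : ℕ) := h1
        have h2' : (l : ℕ) < i + 1 := h2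
        omega

theorem accO_iff {N : ℕ} (G : SimpleGraph (Fin N)) (gr : ∀ m, SimpleGraph (Fin m) → Prop)
    (O : Fin (K + 1) → Fin N → Prop) (hO : ∀ i v, O i v ↔ OrdR (Ker G) O i v) :
    AccO gr G.Adj (InC G) O ↔ AccK gr K G := by
  classical
  constructor
  · rintro ⟨m, H, hg, h1, h2, h3⟩
    set S : Finset (Fin N) := Finset.univ.filter fun v => Ker G v with hS
    have hP : ∀ v, Ker G v ↔ ∃ l, S.orderEmbOfFin rfl l = v := by
      intro v
      have h1 : v ∈ Set.range (S.orderEmbOfFin rfl) ↔ v ∈ S := by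
        rw [S.range_orderEmbOfFin rfl]; rfl
      rw [← Set.mem_range, h1, hS]
      simp
    have key := ord_iff (Ker G) (S.orderEmbOfFin rfl) (S.orderEmbOfFin rfl).strictMono hP O hO
    have hSm : S.card = m := by
      apply le_antisymm
      · by_contra hlt
        exact h2 _ ((key m m.2 _).2 ⟨by omega, rfl⟩)
      · by_contra hlt
        obtain ⟨v, hv⟩ := h1 ⟨S.card, by omega⟩ (by rw [Fin.lt_def]; show S.card < (m : ℕ); omega)
        rw [key] at hv
        obtain ⟨h, -⟩ := hv
        exact absurd h (lt_irrefl _)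
    refine ⟨m, H, hg, fun l => S.orderEmbOfFin rfl (l.cast hSm.symm), ?_, ?_, ?_⟩
    · intro i j hij
      exact (S.orderEmbOfFin rfl).strictMono hij
    · intro v
      rw [hP]
      constructor
      · rintro ⟨l, hl⟩
        exact ⟨l.cast hSm, hl⟩
      · rintro ⟨l, hl⟩
        exact ⟨l.cast hSm.symm, hl⟩
    · intro a b
      rw [h3 a b]
      refine and_congr_right fun _ => ?_
      have ho : ∀ (c : Fin m) (u : Fin N), O (c.castLE (by omega)) u ↔
          S.orderEmbOfFin rfl (c.cast hSm.symm) = u := by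
        intro c u
        have := key c (by omega) u
        constructor
        · intro h
          obtain ⟨_, h'⟩ := this.1 h
          exact h'
        · intro h
          exact this.2 ⟨by omega, h⟩
      constructor
      · rintro ⟨u, v, hu, hv, h⟩
        rw [ho] at hu hv
        subst hu hv
        exact h
      · intro h
        exact ⟨_, _, (ho a _).2 rfl, (ho b _).2 rfl, h⟩
  · rintro ⟨m, H, hg, w, hw, hP, hadj⟩
    have key := ord_iff (Ker G) w hw hP O hO
    refine ⟨m, H, hg, ?_, ?_, ?_⟩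
    · intro i hi
      exact ⟨w ⟨i, hi⟩, (key i i.2 _).2 ⟨hi, rfl⟩⟩
    · intro v hv
      obtain ⟨h, -⟩ := (key m m.2 v).1 hv
      exact absurd h (lt_irrefl _)
    · intro a b
      rw [hadj a b]
      refine and_congr_right fun _ => ?_
      have ho : ∀ (c : Fin m) (u : Fin N), O (c.castLE (by omega)) u ↔ w c = u := by
        intro c u
        have := key c (by omega) u
        constructor
        · intro h
          obtain ⟨_, h'⟩ := this.1 h
          exact h'
        · intro h
          exact this.2 ⟨c.2, h⟩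
      constructor
      · intro h
        exact ⟨_, _, (ho a _).2 rfl, (ho b _).2 rfl, h⟩
      · rintro ⟨u, v, hu, hv, h⟩
        rw [ho] at hu hv
        subst hu hv
        exact h

/-! ### The machine -/

/-- **The machine for the canonical kernel**, with a time bound of absolute degree. -/
theorem machineK (hdeg : PolytimeDeg) : ∃ d : ℕ, ∀ (K : ℕ)
    (gs gr : ∀ m, SimpleGraph (Fin m) → Prop),
    ∃ (f : Graph → List Bool) (M : TM2ComputableInPolyTime Graph.encode id f),
      M.time.natDegree ≤ d ∧ (∀ k, Finite (M.tm.Γ k)) ∧ ∀ I : Graph, ∃ b : Bool, f I = [b] ∧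
        (b = true ↔ (I.n ≤ 3 ∧ gs I.n I.G) ∨ (3 < I.n ∧ AccK gr K I.G)) := by
  refine ⟨2 * ((2 * 15 + 40 + 1) + 15 + 2) + 1, fun K gs gr => ?_⟩
  obtain ⟨f, M, hM1, hM2, hf⟩ := machine_of_system (W1 := WK K) (ι := ik K) hdeg (A := 15)
    (q := 40) enumW enumW_injective (fun i => RK (enumW i)) (fun i => td_RK _)
    (by
      intro i N M M' hMM E
      refine RK_congr _ N M M' (hMM none (Or.inl rfl)) ?_ E
      intro w' hw'
      obtain ⟨j, hj, rfl⟩ := exists_enumW w'
      refine hMM _ (Or.inr ⟨j, ?_, rfl⟩)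
      rw [rk_enumW, rk_enumW] at hw'
      exact hw')
    (by
      intro w
      cases w with
      | cl => simp [ik]
      | ker => simp [ik]
      | ord i => simp [ik])
    (by omega)
    (fun N a => SmallT gs (TDefD.Adj N a) ∨
      (3 < N ∧ AccO gr (TDefD.Adj N a) (tcl N a) (tord N a)))
    (((td_small gs).up (by omega)).or ((td_lt.up (by omega)).and ((td_accO gr).up (by omega))))
  refine ⟨f, M, hM1, hM2, fun I => ?_⟩
  obtain ⟨a, b, hadj, hl, hb1, hb2⟩ := hf I
  refine ⟨b, hb1, ?_⟩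
  have hl' : ∀ w, IsLfp (ik K) I.n a w (RK w I.n) := by
    intro w
    obtain ⟨i, _, rfl⟩ := exists_enumW w
    exact hl i
  have hA : TDefD.Adj I.n a = I.G.Adj := by
    funext x y
    exact propext (hadj x y)
  have hcl : tcl I.n a = InC I.G := by
    funext s v
    apply propext
    constructor
    · intro h
      refine (hl' .cl).2 (fun E => InC I.G (fun i => E (.inl i)) (E (.inr ()))) ?_
        (Sum.elim s fun _ => v) h
      intro M' hM' hMP E hE
      have hadj' : TDefD.Adj I.n M' = I.G.Adj := by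
        rw [← hA]
        exact adj_congr (hM' none (by simp))
      simp only [RK] at hE
      rw [hadj'] at hE
      refine InC.of_step (MP_37c7bf_co_h77dm.Step.mono ?_ hE)
      intro s v hsv
      exact hMP (Sum.elim s fun _ => v) hsv
    · intro h
      refine h (tcl I.n a) fun s v hstep => ?_
      refine (hl' .cl).1 (Sum.elim s fun _ => v) ?_
      simp only [RK]
      rw [hA]
      exact hstep
  have hker : tker I.n a = Ker I.G := by
    funext v
    apply propext
    have := (hl' .ker).tab_iff (fun M' hM' E hE => by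
      simp only [RK] at hE ⊢
      have h1 : TDefD.Adj I.n M' = TDefD.Adj I.n a := adj_congr (hM' none (by simp))
      have h2 : tcl I.n M' = tcl I.n a := by
        funext s v
        unfold tcl
        rw [tab_congr (hM' (some .cl) (by simp))]
      rwa [h1, h2] at hE) (fun _ => v)
    refine this.trans ?_
    simp only [RK]
    rw [hA, hcl]
    exact Iff.rfl
  have hord : ∀ i v, tord I.n a i v ↔ OrdR (Ker I.G) (tord I.n a) i v := by
    intro i v
    have := (hl' (.ord i)).tab_iff (fun M' hM' E hE => by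
      simp only [RK, OrdR] at hE ⊢
      have h1 : tker I.n M' = tker I.n a := by
        funext v
        unfold tker
        rw [tab_congr (hM' (some .ker) (by simp))]
      rw [h1] at hE
      obtain ⟨h2, h3 | ⟨j, hj, u, hu, h4⟩⟩ := hE
      · exact ⟨h2, Or.inl h3⟩
      · refine ⟨h2, Or.inr ⟨j, hj, u, ?_, h4⟩⟩
        unfold tord at hu ⊢
        rwa [← tab_congr (hM' (some (.ord j)) (by
          intro hc
          have : j = i := by simpa using hc
          subst this
          omega))]) (fun _ => v)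
    refine this.trans ?_
    simp only [RK]
    rw [hker]
  rw [hb2, hA, hcl, smallT_iff, accO_iff I.G gr (tord I.n a) hord]

end Pool.Agent.Lib.MP_37c7bf_co_h74dm
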