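import Pool.Agent.Lib.MP_37c7bf_co_h74dm.SemU
import Pool.Agent.Lib.MP_37c7bf_co_h77dm.Uni2

/-! # The uniform machine for dense graphs -/

namespace Pool.Agent.Lib.MP_37c7bf_co_h74dm

open Pool.Agent.Lib.PolyTM Pool.Agent.Lib.FOLFP Pool.Agent.Lib.FOLFPd Function Turing

open Pool.Agent.Lib.MP_37c7bf_co_h77dm (InC Ker Ker4 KAdj IsKer4 AccU exists_isKer4)
open Pool.Agent.Lib.MP_37c7bf_co_h26tw (pin Pins PR adjG)

section
variable {N : ℕ}

/-- Small graphs. -/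
def SmallN (n0 : ℕ) (gs : ∀ m, SimpleGraph (Fin m) → Prop) (A : Fin N → Fin N → Prop) : Prop :=
  ∃ n : Fin (n0 + 1), ∃ H : SimpleGraph (Fin n), gs n H ∧ ∃ x : Fin n → Fin N,
    (∀ i j, i < j → x i < x j) ∧ (∀ v, ∃ l, v = x l) ∧ ∀ i j, H.Adj i j ↔ A (x i) (x j)

/-- The condition for a motion at an edge. The entries of `T` are the coordinates and the
velocities of the two vertices, the differences, the products and the sum. -/
def MotR (PL TM DG : Fin N → Fin N → Fin N → Fin N → Prop) (q : Fin N) (P U : Fin 3 → Fin N)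
    (i j : Fin N) : Prop :=
  ∃ T : (Fin 7 × Fin 3) ⊕ Fin 2 → Fin N,
    (∀ c, DG q (P c) i (T (.inl (0, c))) ∧ DG q (P c) j (T (.inl (1, c))) ∧
      DG q (U c) i (T (.inl (2, c))) ∧ DG q (U c) j (T (.inl (3, c))) ∧
      PL q (T (.inl (4, c))) (T (.inl (1, c))) (T (.inl (0, c))) ∧
      PL q (T (.inl (5, c))) (T (.inl (3, c))) (T (.inl (2, c))) ∧
      TM q (T (.inl (4, c))) (T (.inl (5, c))) (T (.inl (6, c)))) ∧
    PL q (T (.inl (6, 0))) (T (.inl (6, 1))) (T (.inr 0)) ∧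
    PL q (T (.inr 0)) (T (.inl (6, 2))) (T (.inr 1)) ∧ (T (.inr 1) : ℕ) = 0

/-- The digit number `i` of `X` is zero. -/
def ZeroD (DG : Fin N → Fin N → Fin N → Fin N → Prop) (q X i : Fin N) : Prop :=
  ∃ z : Fin N, (z : ℕ) = 0 ∧ DG q X i z

/-- `KAdj` for a relation. -/
def KAdjR (A : Fin N → Fin N → Prop) (cl : (Fin 14 → Fin N) → Fin N → Prop) (u v : Fin N) :
    Prop :=
  u ≠ v ∧ (A u v ∨ ∃ s, cl s u ∧ cl s v)

/-- `q + 1` is a prime number. -/
def PrR (TM : Fin N → Fin N → Fin N → Fin N → Prop) (q : Fin N) : Prop :=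
  (q : ℕ) ≠ 0 ∧ ∀ x y z : Fin N, x ≤ q → y ≤ q → (x : ℕ) ≠ 0 → (y : ℕ) ≠ 0 → (z : ℕ) = 0 →
    ¬ TM q x y z

/-- `(q + 1) ^ (3 m) < N`. -/
def BdR (PL DG : Fin N → Fin N → Fin N → Fin N → Prop) (q m : Fin N) : Prop :=
  ∃ t s s' P j d : Fin N, (∀ x, x ≤ t) ∧ PL t m m s ∧ m ≤ s ∧ PL t s m s' ∧ s ≤ s' ∧ s' ≤ j ∧
    (d : ℕ) ≠ 0 ∧ DG q P j d

/-- The acceptance condition. -/
def AccUR (A : Fin N → Fin N → Prop) (cl : (Fin 14 → Fin N) → Fin N → Prop)
    (I : Fin N → Fin N → Prop) (PL TM DG : Fin N → Fin N → Fin N → Fin N → Prop) : Prop :=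
  ∃ q m : Fin N, (∀ i, i < m → ∃ v, I i v) ∧ (∀ v, ¬ I m v) ∧ PrR TM q ∧ BdR PL DG q m ∧
    ∃ P : Fin 3 → Fin N, ∀ U : Fin 3 → Fin N,
      (∀ i j u v, I i u → I j v → KAdjR A cl u v → MotR PL TM DG q P U i j) →
      (∀ i, i < m → ∀ c, pin c i → ZeroD DG q (U c) i) →
      ∀ i, i < m → ∀ c, ZeroD DG q (U c) i

end

/-! ### Definability -/

section
variable {r : ℕ} {C : ℕ → Arr (Option WU) → Prop} {κ : Type} [DecidableEq κ]

theorem ud_const (c : ℕ) (x : κ) : TDefD (r + 1 + c) iu C κ (fun _ _ e => (e x : ℕ) = c) := by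
  induction c generalizing κ with
  | zero => exact TDefD.isZero x
  | succ c ih =>
    have h : TDefD (r + 1 + c) iu C (κ ⊕ Unit) (fun _ _ e => (e (.inr ()) : ℕ) = c ∧
        (e (.inl x) : ℕ) = e (.inr ()) + 1) :=
      (ih (κ := κ ⊕ Unit) (Sum.inr ())).and ((TDefD.isSucc (q := 0) _ _).up (by omega))
    refine h.ex1.congr ?_
    intro N a e _
    constructor
    · rintro ⟨t, h1, h2⟩
      have h1 : (t : ℕ) = c := h1
      have h2 : (e x : ℕ) = t + 1 := h2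
      omega
    · intro h
      exact ⟨⟨c, by have := (e x).2; omega⟩, rfl, h⟩

theorem ud_small (n0 : ℕ) (gs : ∀ m, SimpleGraph (Fin m) → Prop) :
    TDefD (n0 + 1) iu C κ (fun N a _ => SmallN n0 gs (TDefD.Adj N a)) := by
  refine TDefD.exists' fun n => TDefD.exists' fun H => (TDefD.const _).and ?_
  have h1 : TDefD 1 iu C (κ ⊕ Fin n) (fun N _ e => ∀ v : Fin N, ∃ l : Fin n,
      v = e (.inr l)) := by
    have h : TDefD 0 iu C ((κ ⊕ Fin n) ⊕ Unit) (fun _ _ e => ∃ l : Fin n,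
      e (.inr ()) = e (.inl (.inr l))) := TDefD.exists' fun l => TDefD.eq _ _
    exact h.all1
  have h : TDefD 1 iu C (κ ⊕ Fin n) (fun N a e =>
      (∀ i j : Fin n, i < j → e (.inr i) < e (.inr j)) ∧ (∀ v : Fin N, ∃ l : Fin n,
        v = e (.inr l)) ∧ ∀ i j : Fin n, H.Adj i j ↔ TDefD.Adj N a (e (.inr i)) (e (.inr j))) :=
    (TDefD.forall' fun i => TDefD.forall' fun j => (TDefD.const _).imp (TDefD.lt _ _)).and
      (h1.and (TDefD.forall' fun i => TDefD.forall' fun j => (TDefD.const _).iff (TDefD.adj _ _)))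
  refine h.ex.up ?_
  simp only [Fintype.card_fin]
  omega

theorem ud_big (n0 : ℕ) : TDefD (n0 + 1) iu C κ (fun N _ _ => n0 < N) := by
  have h : TDefD 0 iu C (κ ⊕ Fin (n0 + 1))
      (fun _ _ e => Injective fun i : Fin (n0 + 1) => e (.inr i)) := ud_inj _
  refine (h.ex.up (by simp)).congr ?_
  intro N a e _
  constructor
  · rintro ⟨t, ht⟩
    have h1 := Fintype.card_le_of_injective _ ht
    simp only [Fintype.card_fin] at h1
    omega
  · intro h
    exact ⟨fun i => ⟨i, by omega⟩, fun i j hij => by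
      have := congrArg Fin.val hij
      exact Fin.ext this⟩

theorem ud_mot (q i j : κ) (P U : Fin 3 → κ) :
    TDefD 30 iu C κ (fun N a e => MotR (upl N a) (utm N a) (udg N a) (e q)
      (fun c => e (P c)) (fun c => e (U c)) (e i) (e j)) := by
  have h : TDefD 1 iu C (κ ⊕ ((Fin 7 × Fin 3) ⊕ Fin 2)) (fun N a e =>
    (∀ c : Fin 3, udg N a (e (.inl q)) (e (.inl (P c))) (e (.inl i)) (e (.inr (.inl (0, c)))) ∧
      udg N a (e (.inl q)) (e (.inl (P c))) (e (.inl j)) (e (.inr (.inl (1, c)))) ∧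
      udg N a (e (.inl q)) (e (.inl (U c))) (e (.inl i)) (e (.inr (.inl (2, c)))) ∧
      udg N a (e (.inl q)) (e (.inl (U c))) (e (.inl j)) (e (.inr (.inl (3, c)))) ∧
      upl N a (e (.inl q)) (e (.inr (.inl (4, c)))) (e (.inr (.inl (1, c))))
        (e (.inr (.inl (0, c)))) ∧
      upl N a (e (.inl q)) (e (.inr (.inl (5, c)))) (e (.inr (.inl (3, c))))
        (e (.inr (.inl (2, c)))) ∧
      utm N a (e (.inl q)) (e (.inr (.inl (4, c)))) (e (.inr (.inl (5, c))))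
        (e (.inr (.inl (6, c))))) ∧
    upl N a (e (.inl q)) (e (.inr (.inl (6, 0)))) (e (.inr (.inl (6, 1)))) (e (.inr (.inr 0))) ∧
    upl N a (e (.inl q)) (e (.inr (.inr 0))) (e (.inr (.inl (6, 2)))) (e (.inr (.inr 1))) ∧
      (e (.inr (.inr 1)) : ℕ) = 0) :=
    (TDefD.forall' fun c => (ud_dg _ _ _ _).and ((ud_dg _ _ _ _).and ((ud_dg _ _ _ _).and
      ((ud_dg _ _ _ _).and ((ud_pl _ _ _ _).and ((ud_pl _ _ _ _).and (ud_tm _ _ _ _))))))).and
      ((ud_pl _ _ _ _).and ((ud_pl _ _ _ _).and (TDefD.isZero _)))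
  exact h.ex.up (by simp)

theorem ud_zeroD (q x i : κ) :
    TDefD 2 iu C κ (fun N a e => ZeroD (udg N a) (e q) (e x) (e i)) := by
  have h : TDefD 1 iu C (κ ⊕ Unit) (fun N a e => (e (.inr ()) : ℕ) = 0 ∧
      udg N a (e (.inl q)) (e (.inl x)) (e (.inl i)) (e (.inr ()))) :=
    (TDefD.isZero _).and (ud_dg _ _ _ _)
  exact h.ex1

theorem ud_kadj (u v : κ) :
    TDefD 14 iu C κ (fun N a e => KAdjR (TDefD.Adj N a) (ucl N a) (e u) (e v)) := by
  have h2 : TDefD 0 iu C (κ ⊕ Fin 14) (fun N a e =>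
      ucl N a (fun i => e (.inr i)) (e (.inl u)) ∧
        ucl N a (fun i => e (.inr i)) (e (.inl v))) := (ud_cl _ _).and (ud_cl _ _)
  exact (TDefD.eq _ _).not.and (((TDefD.adj (q := 0) _ _).up (by simp)).or (h2.ex.up (by simp)))

theorem ud_prR (q : κ) : TDefD 5 iu C κ (fun N a e => PrR (utm N a) (e q)) := by
  have h : TDefD 1 iu C (((κ ⊕ Unit) ⊕ Unit) ⊕ Unit) (fun N a e =>
      e (.inl (.inl (.inr ()))) ≤ e (.inl (.inl (.inl q))) →
      e (.inl (.inr ())) ≤ e (.inl (.inl (.inl q))) →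
      (e (.inl (.inl (.inr ()))) : ℕ) ≠ 0 → (e (.inl (.inr ())) : ℕ) ≠ 0 →
      (e (.inr ()) : ℕ) = 0 → ¬ utm N a (e (.inl (.inl (.inl q)))) (e (.inl (.inl (.inr ()))))
        (e (.inl (.inr ()))) (e (.inr ()))) :=
    (TDefD.le _ _).imp ((TDefD.le _ _).imp ((TDefD.isZero _).not.imp ((TDefD.isZero _).not.imp
      ((TDefD.isZero _).imp (ud_tm _ _ _ _).not))))
  exact ((TDefD.isZero (q := 4) _).not).and (h.all1.all1.all1.up (by omega))

theorem ud_bdR (q m : κ) :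
    TDefD 10 iu C κ (fun N a e => BdR (upl N a) (udg N a) (e q) (e m)) := by
  have h1 : TDefD 0 iu C ((κ ⊕ Fin 6) ⊕ Unit) (fun _ _ e =>
      e (.inr ()) ≤ e (.inl (.inr 0))) := TDefD.le _ _
  have h : TDefD 1 iu C (κ ⊕ Fin 6) (fun N a e => (∀ x, x ≤ e (.inr 0)) ∧
      upl N a (e (.inr 0)) (e (.inl m)) (e (.inl m)) (e (.inr 1)) ∧
      e (.inl m) ≤ e (.inr 1) ∧ upl N a (e (.inr 0)) (e (.inr 1)) (e (.inl m)) (e (.inr 2)) ∧
      e (.inr 1) ≤ e (.inr 2) ∧ e (.inr 2) ≤ e (.inr 4) ∧ (e (.inr 5) : ℕ) ≠ 0 ∧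
      udg N a (e (.inl q)) (e (.inr 3)) (e (.inr 4)) (e (.inr 5))) :=
    h1.all1.and ((ud_pl _ _ _ _).and ((TDefD.le _ _).and ((ud_pl _ _ _ _).and
      ((TDefD.le _ _).and ((TDefD.le _ _).and ((TDefD.isZero _).not.and (ud_dg _ _ _ _)))))))
  refine (h.ex.up (by simp)).congr ?_
  intro N a e _
  constructor
  · rintro ⟨t, h⟩
    exact ⟨t 0, t 1, t 2, t 3, t 4, t 5, h⟩
  · rintro ⟨t0, t1, t2, t3, t4, t5, h⟩
    exact ⟨![t0, t1, t2, t3, t4, t5], h⟩

theorem ud_pin (c : Fin 3) (x : κ) : TDefD 3 iu C κ (fun _ _ e => pin c (e x : ℕ)) :=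
  ((ud_const (r := 2) 0 x)).or ((((ud_const (r := 1) 1 x)).and (TDefD.const _)).or
    ((ud_const (r := 0) 2 x).and (TDefD.const _)))

theorem ud_accUR :
    TDefD 60 iu C κ (fun N a _ => AccUR (TDefD.Adj N a) (ucl N a) (uix N a) (upl N a) (utm N a)
      (udg N a)) := by
  -- for all `U`
  have m1 : TDefD 30 iu C ((((((((κ ⊕ Unit) ⊕ Unit) ⊕ Fin 3) ⊕ Fin 3) ⊕ Unit) ⊕ Unit) ⊕ Unit) ⊕
      Unit) (fun N a e =>
      uix N a (e (.inl (.inl (.inl (.inr ()))))) (e (.inl (.inr ()))) →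
      uix N a (e (.inl (.inl (.inr ())))) (e (.inr ())) →
      KAdjR (TDefD.Adj N a) (ucl N a) (e (.inl (.inr ()))) (e (.inr ())) →
      MotR (upl N a) (utm N a) (udg N a)
        (e (.inl (.inl (.inl (.inl (.inl (.inl (.inl (.inr ()))))))))) 
        (fun c => e (.inl (.inl (.inl (.inl (.inl (.inr c)))))))
        (fun c => e (.inl (.inl (.inl (.inl (.inr c))))))
        (e (.inl (.inl (.inl (.inr ()))))) (e (.inl (.inl (.inr ()))))) :=
    (ud_ix _ _).imp ((ud_ix _ _).imp (((ud_kadj _ _).up (by omega)).imp (ud_mot _ _ _ _ _)))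
  have m2 : TDefD 3 iu C (((((κ ⊕ Unit) ⊕ Unit) ⊕ Fin 3) ⊕ Fin 3) ⊕ Unit) (fun N a e =>
      e (.inr ()) < e (.inl (.inl (.inl (.inr ())))) → ∀ c : Fin 3, pin c (e (.inr ()) : ℕ) →
        ZeroD (udg N a) (e (.inl (.inl (.inl (.inl (.inr ())))))) (e (.inl (.inr c)))
          (e (.inr ()))) :=
    (TDefD.lt _ _).imp (TDefD.forall' fun c => (ud_pin c _).imp ((ud_zeroD _ _ _).up (by omega)))
  have m3 : TDefD 3 iu C (((((κ ⊕ Unit) ⊕ Unit) ⊕ Fin 3) ⊕ Fin 3) ⊕ Unit) (fun N a e =>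
      e (.inr ()) < e (.inl (.inl (.inl (.inr ())))) → ∀ c : Fin 3,
        ZeroD (udg N a) (e (.inl (.inl (.inl (.inl (.inr ())))))) (e (.inl (.inr c)))
          (e (.inr ()))) :=
    (TDefD.lt _ _).imp (TDefD.forall' fun c => ((ud_zeroD _ _ _).up (by omega)))
  have m4 : TDefD 34 iu C ((((κ ⊕ Unit) ⊕ Unit) ⊕ Fin 3) ⊕ Fin 3) (fun N a e =>
      (∀ i j u v, uix N a i u → uix N a j v → KAdjR (TDefD.Adj N a) (ucl N a) u v →
        MotR (upl N a) (utm N a) (udg N a) (e (.inl (.inl (.inl (.inr ())))))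
          (fun c => e (.inl (.inr c))) (fun c => e (.inr c)) i j) →
      (∀ i, i < e (.inl (.inl (.inr ()))) → ∀ c : Fin 3, pin c (i : ℕ) →
        ZeroD (udg N a) (e (.inl (.inl (.inl (.inr ()))))) (e (.inr c)) i) →
      ∀ i, i < e (.inl (.inl (.inr ()))) → ∀ c : Fin 3,
        ZeroD (udg N a) (e (.inl (.inl (.inl (.inr ()))))) (e (.inr c)) i) :=
    (m1.all1.all1.all1.all1).imp ((m2.all1.up (by omega)).imp (m3.all1.up (by omega)))
  have i1 : TDefD 0 iu C ((((κ ⊕ Unit) ⊕ Unit) ⊕ Unit) ⊕ Unit) (fun N a e =>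
      uix N a (e (.inl (.inr ()))) (e (.inr ()))) := ud_ix _ _
  have i2 : TDefD 1 iu C (((κ ⊕ Unit) ⊕ Unit) ⊕ Unit) (fun N a e =>
      e (.inr ()) < e (.inl (.inr ())) → ∃ v, uix N a (e (.inr ())) v) :=
    (TDefD.lt _ _).imp i1.ex1
  have i3 : TDefD 0 iu C (((κ ⊕ Unit) ⊕ Unit) ⊕ Unit) (fun N a e =>
      ¬ uix N a (e (.inl (.inr ()))) (e (.inr ()))) := (ud_ix _ _).not
  have h : TDefD 50 iu C ((κ ⊕ Unit) ⊕ Unit) (fun N a e =>
      (∀ i, i < e (.inr ()) → ∃ v, uix N a i v) ∧ (∀ v, ¬ uix N a (e (.inr ())) v) ∧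
      PrR (utm N a) (e (.inl (.inr ()))) ∧
      BdR (upl N a) (udg N a) (e (.inl (.inr ()))) (e (.inr ())) ∧
      ∃ P : Fin 3 → Fin N, ∀ U : Fin 3 → Fin N,
      (∀ i j u v, uix N a i u → uix N a j v → KAdjR (TDefD.Adj N a) (ucl N a) u v →
        MotR (upl N a) (utm N a) (udg N a) (e (.inl (.inr ()))) P U i j) →
      (∀ i, i < e (.inr ()) → ∀ c, pin c i → ZeroD (udg N a) (e (.inl (.inr ()))) (U c) i) →
      ∀ i, i < e (.inr ()) → ∀ c, ZeroD (udg N a) (e (.inl (.inr ()))) (U c) i) :=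
    (i2.all1.up (by omega)).and ((i3.all1.up (by omega)).and (((ud_prR _).up (by omega)).and
      (((ud_bdR _ _).up (by omega)).and (m4.all.ex.up (by simp)))))
  exact h.ex1.ex1.up (by omega)

end

/-! ### Arithmetic -/

theorem prime_iff (q : ℕ) : (q + 1).Prime ↔ q ≠ 0 ∧ ∀ x y : ℕ, x ≤ q → y ≤ q → x ≠ 0 → y ≠ 0 →
    (x * y) % (q + 1) ≠ 0 := by
  constructor
  · intro hp
    refine ⟨fun h => ?_, fun x y hx hy hx0 hy0 h => ?_⟩
    · subst h
      exact absurd hp (by decide)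
    · rcases (Nat.Prime.dvd_mul hp).1 (Nat.dvd_of_mod_eq_zero h) with h | h
      · have := Nat.le_of_dvd (Nat.pos_of_ne_zero hx0) h
        omega
      · have := Nat.le_of_dvd (Nat.pos_of_ne_zero hy0) h
        omega
  · rintro ⟨h0, h⟩
    rw [Nat.prime_def]
    refine ⟨by omega, fun m hm => ?_⟩
    by_contra hcon
    push Not at hcon
    obtain ⟨c, hc⟩ := hm
    have hm0 : m ≠ 0 := by
      rintro rfl
      rw [zero_mul] at hc
      omega
    have hc0 : c ≠ 0 := by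
      rintro rfl
      rw [mul_zero] at hc
      omega
    have hc1 : c ≠ 1 := by
      rintro rfl
      rw [mul_one] at hc
      exact hcon.2 hc.symm
    have hmq : m ≤ q := by
      have : m * 2 ≤ m * c := Nat.mul_le_mul_left _ (by omega)
      omega
    have hcq : c ≤ q := by
      have : 2 * c ≤ m * c := Nat.mul_le_mul_right _ (by omega)
      omega
    exact h m c hmq hcq hm0 hc0 (by rw [← hc, Nat.mod_self])

theorem exists_code {b m N : ℕ} (hb : b ^ m ≤ N) (f : ℕ → ℕ) (hf : ∀ i, f i < b) :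
    ∃ P : Fin N, ∀ i < m, bdig b P i = f i := by
  have h1 : bval b (fun i : Fin m => f i) < b ^ m := bval_lt fun i => hf i
  refine ⟨⟨bval b (fun i : Fin m => f i), lt_of_lt_of_le h1 hb⟩, fun i hi => ?_⟩
  exact bdig_bval (d := fun i : Fin m => f i) (fun i => hf i) ⟨i, hi⟩

theorem bound_iff {N : ℕ} {PL DG : Fin N → Fin N → Fin N → Fin N → Prop}
    (hPL : ∀ q x y z : Fin N, PL q x y z ↔ (z : ℕ) = (x + y) % (q + 1))
    (hDG : ∀ q P j d : Fin N, DG q P j d ↔ (d : ℕ) = bdig (q + 1) P j) (q m : Fin N)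
    (hq : (q : ℕ) ≠ 0) : BdR PL DG q m ↔ ((q : ℕ) + 1) ^ (3 * (m : ℕ)) < N := by
  have hN : 0 < N := lt_of_le_of_lt (Nat.zero_le _) q.2
  constructor
  · rintro ⟨t, s, s', P, j, d, ht, h1, h2, h3, h4, h5, h6, h7⟩
    have htN : (t : ℕ) + 1 = N := by
      have h8 := ht ⟨N - 1, by omega⟩
      rw [Fin.le_def] at h8
      have h8' : N - 1 ≤ (t : ℕ) := h8
      have := t.2
      omega
    rw [hPL, htN] at h1 h3
    rw [Fin.le_def] at h2 h4 h5
    have hm := m.2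
    have hs : (s : ℕ) = m + m := by
      rcases Nat.lt_or_ge ((m : ℕ) + m) N with h | h
      · rwa [Nat.mod_eq_of_lt h] at h1
      · rw [Nat.mod_eq_sub_mod h, Nat.mod_eq_of_lt (by omega)] at h1
        omega
    have hs' : (s' : ℕ) = s + m := by
      have := s.2
      rcases Nat.lt_or_ge ((s : ℕ) + m) N with h | h
      · rwa [Nat.mod_eq_of_lt h] at h3
      · rw [Nat.mod_eq_sub_mod h, Nat.mod_eq_of_lt (by omega)] at h3
        omega
    have hj : 3 * (m : ℕ) ≤ j := by omega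
    rw [hDG] at h7
    have h8 : 0 < (P : ℕ) / ((q : ℕ) + 1) ^ (j : ℕ) := by
      by_contra hcon
      have h9 : (P : ℕ) / ((q : ℕ) + 1) ^ (j : ℕ) = 0 := Nat.eq_zero_of_not_pos hcon
      unfold bdig at h7
      rw [h9, Nat.zero_mod] at h7
      exact h6 h7
    have h9 : ((q : ℕ) + 1) ^ (j : ℕ) ≤ P := by
      by_contra hcon
      rw [Nat.div_eq_of_lt (by omega)] at h8
      exact absurd h8 (lt_irrefl _)
    exact lt_of_le_of_lt ((Nat.pow_le_pow_right (by omega) hj).trans h9) P.2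
  · intro h
    have h3m : 3 * (m : ℕ) < N := lt_of_le_of_lt (Nat.lt_pow_self (by omega)).le h
    refine ⟨⟨N - 1, by omega⟩, ⟨2 * m, by omega⟩, ⟨3 * m, h3m⟩,
      ⟨((q : ℕ) + 1) ^ (3 * (m : ℕ)), h⟩, ⟨3 * m, h3m⟩, ⟨1, ?_⟩, ?_, ?_, ?_, ?_, ?_, ?_, ?_, ?_⟩
    · have := q.2
      omega
    · intro x
      rw [Fin.le_def]
      have := x.2
      show (x : ℕ) ≤ N - 1
      omega
    · rw [hPL]
      show 2 * (m : ℕ) = ((m : ℕ) + m) % (N - 1 + 1)
      rw [Nat.mod_eq_of_lt (by omega)]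
      omega
    · rw [Fin.le_def]
      show (m : ℕ) ≤ 2 * m
      omega
    · rw [hPL]
      show 3 * (m : ℕ) = (2 * (m : ℕ) + m) % (N - 1 + 1)
      rw [Nat.mod_eq_of_lt (by omega)]
      omega
    · rw [Fin.le_def]
      show 2 * (m : ℕ) ≤ 3 * m
      omega
    · exact le_rfl
    · exact one_ne_zero
    · rw [hDG]
      show 1 = bdig ((q : ℕ) + 1) (((q : ℕ) + 1) ^ (3 * (m : ℕ))) (3 * m)
      unfold bdig
      rw [Nat.div_self (pow_pos (by omega) _), Nat.mod_eq_of_lt (by omega)]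

theorem cast_of_add {q x y z : ℕ} (h : z = (x + y) % (q + 1)) :
    (z : ZMod (q + 1)) = x + y := by
  rw [h, ZMod.natCast_mod, Nat.cast_add]

theorem cast_of_mul {q x y z : ℕ} (h : z = (x * y) % (q + 1)) :
    (z : ZMod (q + 1)) = x * y := by
  rw [h, ZMod.natCast_mod, Nat.cast_mul]

theorem add_of_cast {q x y z : ℕ} (hz : z < q + 1) (h : (z : ZMod (q + 1)) = x + y) :
    z = (x + y) % (q + 1) := by
  rw [← Nat.cast_add, ZMod.natCast_eq_natCast_iff', Nat.mod_eq_of_lt hz] at h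
  exact h

theorem mot_iff {N : ℕ} {PL TM DG : Fin N → Fin N → Fin N → Fin N → Prop}
    (hPL : ∀ q x y z : Fin N, PL q x y z ↔ (z : ℕ) = (x + y) % (q + 1))
    (hTM : ∀ q x y z : Fin N, TM q x y z ↔ (z : ℕ) = (x * y) % (q + 1))
    (hDG : ∀ q P j d : Fin N, DG q P j d ↔ (d : ℕ) = bdig (q + 1) P j) (q : Fin N)
    (P U : Fin 3 → Fin N) (i j : Fin N) :
    MotR PL TM DG q P U i j ↔
      ∑ c, (((bdig (q + 1) (P c) i : ℕ) : ZMod (q + 1)) - ((bdig (q + 1) (P c) j : ℕ) : ZMod _)) *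
        (((bdig (q + 1) (U c) i : ℕ) : ZMod (q + 1)) - ((bdig (q + 1) (U c) j : ℕ) : ZMod _)) =
        0 := by
  have hbd : ∀ x y : ℕ, bdig ((q : ℕ) + 1) x y < q + 1 := fun x y => bdig_lt (by omega) _ _
  have hval : ∀ x : ZMod ((q : ℕ) + 1), x.val < N := fun x => by
    have := ZMod.val_lt x
    have := q.2
    omega
  constructor
  · rintro ⟨T, hT, h1, h2, h3⟩
    rw [hPL] at h1 h2
    have g1 := cast_of_add h1
    have g2 := cast_of_add h2
    rw [h3, Nat.cast_zero] at g2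
    have key : ∀ c, ((T (.inl (6, c)) : ℕ) : ZMod ((q : ℕ) + 1)) =
        (((bdig (q + 1) (P c) i : ℕ) : ZMod (q + 1)) - ((bdig (q + 1) (P c) j : ℕ) : ZMod _)) *
        (((bdig (q + 1) (U c) i : ℕ) : ZMod (q + 1)) - ((bdig (q + 1) (U c) j : ℕ) : ZMod _)) := by
      intro c
      obtain ⟨e1, e2, e3, e4, e5, e6, e7⟩ := hT c
      rw [hDG] at e1 e2 e3 e4
      rw [hPL] at e5 e6
      rw [hTM] at e7
      rw [cast_of_mul e7, ← e1, ← e2, ← e3, ← e4, cast_of_add e5, cast_of_add e6]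
      ring
    rw [Fin.sum_univ_three, ← key, ← key, ← key, ← g1, ← g2]
  · intro h
    rw [Fin.sum_univ_three] at h
    have hlt : ∀ x y : ℕ, bdig ((q : ℕ) + 1) x y < N := fun x y => by
      have := hbd x y
      have := q.2
      omega
    have hmod : ∀ x : ℕ, x % ((q : ℕ) + 1) < N := fun x => by
      have := Nat.mod_lt x (show 0 < (q : ℕ) + 1 by omega)
      have := q.2
      omega
    have hN : 0 < N := lt_of_le_of_lt (Nat.zero_le _) q.2
    let dp : Fin 3 → ZMod ((q : ℕ) + 1) := fun c =>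
      ((bdig (q + 1) (P c) i : ℕ) : ZMod (q + 1)) - ((bdig (q + 1) (P c) j : ℕ) : ZMod _)
    let du : Fin 3 → ZMod ((q : ℕ) + 1) := fun c =>
      ((bdig (q + 1) (U c) i : ℕ) : ZMod (q + 1)) - ((bdig (q + 1) (U c) j : ℕ) : ZMod _)
    let tt : Fin 3 → ℕ := fun c => ((dp c).val * (du c).val) % ((q : ℕ) + 1)
    have htt : ∀ c, ((tt c : ℕ) : ZMod ((q : ℕ) + 1)) = dp c * du c := by
      intro c
      have := cast_of_mul (q := (q : ℕ)) (x := (dp c).val) (y := (du c).val) (z := tt c) rfl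
      rw [this, ZMod.natCast_zmod_val, ZMod.natCast_zmod_val]
    refine ⟨Sum.elim (fun p => ![⟨bdig (q + 1) (P p.2) i, hlt _ _⟩,
      ⟨bdig (q + 1) (P p.2) j, hlt _ _⟩, ⟨bdig (q + 1) (U p.2) i, hlt _ _⟩,
      ⟨bdig (q + 1) (U p.2) j, hlt _ _⟩, ⟨(dp p.2).val, hval _⟩, ⟨(du p.2).val, hval _⟩,
      ⟨tt p.2, hmod _⟩] p.1) ![⟨(tt 0 + tt 1) % (q + 1), hmod _⟩, ⟨0, hN⟩], ?_, ?_, ?_, rfl⟩
    · intro c
      refine ⟨(hDG _ _ _ _).2 rfl, (hDG _ _ _ _).2 rfl, (hDG _ _ _ _).2 rfl,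
        (hDG _ _ _ _).2 rfl, (hPL _ _ _ _).2 ?_, (hPL _ _ _ _).2 ?_, (hTM _ _ _ _).2 rfl⟩
      · refine add_of_cast (hbd _ _) ?_
        show ((bdig (q + 1) (P c) i : ℕ) : ZMod (q + 1)) = (((dp c).val : ℕ) : ZMod ((q : ℕ) + 1)) +
          ((bdig (q + 1) (P c) j : ℕ) : ZMod _)
        rw [ZMod.natCast_zmod_val]
        ring
      · refine add_of_cast (hbd _ _) ?_
        show ((bdig (q + 1) (U c) i : ℕ) : ZMod (q + 1)) = (((du c).val : ℕ) : ZMod ((q : ℕ) + 1)) +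
          ((bdig (q + 1) (U c) j : ℕ) : ZMod _)
        rw [ZMod.natCast_zmod_val]
        ring
    · exact (hPL _ _ _ _).2 rfl
    · refine (hPL _ _ _ _).2 (add_of_cast (by show (0 : ℕ) < (q : ℕ) + 1; omega) ?_)
      show ((0 : ℕ) : ZMod ((q : ℕ) + 1)) = (((tt 0 + tt 1) % (q + 1) : ℕ) : ZMod _) +
        ((tt 2 : ℕ) : ZMod _)
      rw [ZMod.natCast_mod, Nat.cast_add, htt, htt, htt, Nat.cast_zero]
      exact h.symm

theorem zeroD_iff {N : ℕ} {DG : Fin N → Fin N → Fin N → Fin N → Prop}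
    (hDG : ∀ q P j d : Fin N, DG q P j d ↔ (d : ℕ) = bdig (q + 1) P j) (q X i : Fin N) :
    ZeroD DG q X i ↔ ((bdig (q + 1) X i : ℕ) : ZMod ((q : ℕ) + 1)) = 0 := by
  have hbd : bdig ((q : ℕ) + 1) X i < q + 1 := bdig_lt (by omega) _ _
  rw [ZMod.natCast_eq_zero_iff]
  constructor
  · rintro ⟨z, h0, h1⟩
    rw [hDG, h0] at h1
    rw [← h1]
    exact dvd_zero _
  · intro h
    have h1 := Nat.eq_zero_of_dvd_of_lt h hbd
    refine ⟨⟨0, lt_of_le_of_lt (Nat.zero_le _) q.2⟩, rfl, ?_⟩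
    rw [hDG, h1]

/-! ### The acceptance condition -/

theorem smallN_iff {N : ℕ} (n0 : ℕ) (G : SimpleGraph (Fin N))
    (gs : ∀ m, SimpleGraph (Fin m) → Prop) : SmallN n0 gs G.Adj ↔ N ≤ n0 ∧ gs N G := by
  constructor
  · rintro ⟨n, H, hg, x, hmono, hsurj, hadj⟩
    have hx : StrictMono x := fun i j h => hmono i j h
    have hs : Surjective x := fun v => by
      obtain ⟨l, hl⟩ := hsurj v
      exact ⟨l, hl.symm⟩
    have hN : N = n := by
      have := Fintype.card_of_bijective ⟨hx.injective, hs⟩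
      simpa using this.symm
    subst hN
    have hid : x = id := (hx.range_inj strictMono_id).1 (by
      rw [hs.range_eq, Set.range_id])
    have hG : G = H := by
      ext i j
      rw [hadj i j, hid]
      rfl
    subst hG
    exact ⟨by omega, hg⟩
  · rintro ⟨hN, hg⟩
    exact ⟨⟨N, by omega⟩, G, hg, id, fun i j h => h, fun v => ⟨v, rfl⟩, fun i j => Iff.rfl⟩


theorem prR_iff {N : ℕ} {TM : Fin N → Fin N → Fin N → Fin N → Prop}
    (hTM : ∀ q x y z : Fin N, TM q x y z ↔ (z : ℕ) = (x * y) % (q + 1)) (q : Fin N) :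
    PrR TM q ↔ ((q : ℕ) + 1).Prime := by
  rw [prime_iff]
  refine and_congr_right fun _ => ?_
  have hN : 0 < N := lt_of_le_of_lt (Nat.zero_le _) q.2
  constructor
  · intro h x y hx hy hx0 hy0 h0
    refine h ⟨x, lt_of_le_of_lt hx q.2⟩ ⟨y, lt_of_le_of_lt hy q.2⟩ ⟨0, hN⟩ hx hy hx0 hy0 rfl ?_
    rw [hTM]
    exact h0.symm
  · intro h x y z hx hy hx0 hy0 hz hTM'
    rw [hTM, hz] at hTM'
    exact h x y hx hy hx0 hy0 hTM'.symm

section
variable {N : ℕ} {G : SimpleGraph (Fin N)} {I : Fin N → Fin N → Prop}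
  {PL TM DG : Fin N → Fin N → Fin N → Fin N → Prop}

theorem core_iff {m : ℕ} {H : SimpleGraph (Fin m)} {w : Fin m → Fin N} (hw : IsKer4 G H w)
    (hI : ∀ j v : Fin N, I j v ↔ ∃ h : (j : ℕ) < m, w ⟨j, h⟩ = v)
    (hPL : ∀ q x y z : Fin N, PL q x y z ↔ (z : ℕ) = (x + y) % (q + 1))
    (hTM : ∀ q x y z : Fin N, TM q x y z ↔ (z : ℕ) = (x * y) % (q + 1))
    (hDG : ∀ q P j d : Fin N, DG q P j d ↔ (d : ℕ) = bdig (q + 1) P j)
    (q m' : Fin N) (hm : (m' : ℕ) = m) (hlt : ((q : ℕ) + 1) ^ m ≤ N) (P : Fin 3 → Fin N) :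
    (∀ U : Fin 3 → Fin N,
      (∀ i j u v, I i u → I j v → KAdjR G.Adj (InC G) u v → MotR PL TM DG q P U i j) →
      (∀ i, i < m' → ∀ c, pin c i → ZeroD DG q (U c) i) →
      ∀ i, i < m' → ∀ c, ZeroD DG q (U c) i) ↔
    PR m (adjG H) fun i c => ((bdig ((q : ℕ) + 1) (P c) i : ℕ) : ZMod ((q : ℕ) + 1)) := by
  constructor
  · intro h u hu1 hu2
    have hex : ∀ c : Fin 3, ∃ X : Fin N, ∀ i < m, bdig ((q : ℕ) + 1) X i = (u i c).val :=
      fun c => exists_code hlt (fun i => (u i c).val) fun i => ZMod.val_lt _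
    choose U hU using hex
    have hU' : ∀ i < m, ∀ c, ((bdig ((q : ℕ) + 1) (U c) i : ℕ) : ZMod ((q : ℕ) + 1)) = u i c := by
      intro i hi c
      rw [hU c i hi, ZMod.natCast_zmod_val]
    have h1 := h U ?_ ?_
    · intro x hx c
      have hxN : x < N := by have := m'.2; omega
      have h2 := h1 ⟨x, hxN⟩ (by rw [Fin.lt_def]; show x < (m' : ℕ); omega) c
      rw [zeroD_iff hDG] at h2
      rw [← hU' x hx c]
      exact h2
    · intro i j u' v' hi hj hadj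
      obtain ⟨him, rfl⟩ := (hI _ _).1 hi
      obtain ⟨hjm, rfl⟩ := (hI _ _).1 hj
      rw [mot_iff hPL hTM hDG]
      have h2 := hu1 i j ⟨him, hjm, (hw.2.2 _ _).2 hadj⟩
      rw [← h2]
      refine Finset.sum_congr rfl fun c _ => ?_
      rw [hU' i him c, hU' j hjm c]
    · intro i hi c hc
      rw [Fin.lt_def] at hi
      have him : (i : ℕ) < m := by omega
      rw [zeroD_iff hDG, hU' i him c]
      exact hu2 i him c hc
  · intro h U hU1 hU2 i hi c
    rw [Fin.lt_def] at hi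
    rw [zeroD_iff hDG]
    have hmN : m < N := by have := m'.2; omega
    refine h (fun i c => ((bdig ((q : ℕ) + 1) (U c) i : ℕ) : ZMod ((q : ℕ) + 1))) ?_ ?_ i
      (by omega) c
    · rintro x y ⟨hx, hy, hadj⟩
      have h1 := hU1 ⟨x, by omega⟩ ⟨y, by omega⟩ (w ⟨x, hx⟩) (w ⟨y, hy⟩)
        ((hI _ _).2 ⟨hx, rfl⟩) ((hI _ _).2 ⟨hy, rfl⟩) ((hw.2.2 _ _).1 hadj)
      rw [mot_iff hPL hTM hDG] at h1
      exact h1
    · intro x hx c hc
      have h1 := hU2 ⟨x, by omega⟩ (by rw [Fin.lt_def]; show x < (m' : ℕ); omega) c hc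
      rw [zeroD_iff hDG] at h1
      exact h1

theorem accUR_iff
    (hex : ∃ (m : ℕ) (H : SimpleGraph (Fin m)) (w : Fin m → Fin N), IsKer4 G H w)
    (hI : ∀ {m : ℕ} {H : SimpleGraph (Fin m)} {w : Fin m → Fin N}, IsKer4 G H w →
      ∀ j v : Fin N, I j v ↔ ∃ h : (j : ℕ) < m, w ⟨j, h⟩ = v)
    (hPL : ∀ q x y z : Fin N, PL q x y z ↔ (z : ℕ) = (x + y) % (q + 1))
    (hTM : ∀ q x y z : Fin N, TM q x y z ↔ (z : ℕ) = (x * y) % (q + 1))
    (hDG : ∀ q P j d : Fin N, DG q P j d ↔ (d : ℕ) = bdig (q + 1) P j) :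
    AccUR G.Adj (InC G) I PL TM DG ↔ AccU G := by
  constructor
  · rintro ⟨q, m', h1, h2, h3, h4, P, hP⟩
    obtain ⟨m, H, w, hw⟩ := hex
    have hI' := hI hw
    have hm : (m' : ℕ) = m := by
      apply le_antisymm
      · by_contra hcon
        have hmN := m'.2
        obtain ⟨v, hv⟩ := h1 ⟨m, by omega⟩ (by rw [Fin.lt_def]; show m < (m' : ℕ); omega)
        obtain ⟨h, -⟩ := (hI' _ _).1 hv
        exact absurd h (lt_irrefl _)
      · by_contra hcon
        exact h2 _ ((hI' m' (w ⟨m', by omega⟩)).2 ⟨by omega, rfl⟩)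
    have h4' := (bound_iff hPL hDG q m' h3.1).1 h4
    rw [hm] at h4'
    have hle : ((q : ℕ) + 1) ^ m ≤ N :=
      (Nat.pow_le_pow_right (by omega) (by omega : m ≤ 3 * m)).trans h4'.le
    exact ⟨m, H, w, hw, q, (prR_iff hTM q).1 h3, h4', _,
      (core_iff hw hI' hPL hTM hDG q m' hm hle P).1 hP⟩
  · rintro ⟨m, H, w, hw, q, hq, hlt, p, hp⟩
    have hI' := hI hw
    rcases Nat.eq_zero_or_pos m with h0 | h0
    · subst h0
      have h1N : 1 < N := by simpa using hlt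
      refine ⟨⟨1, h1N⟩, ⟨0, by omega⟩, ?_, ?_, ?_, ?_, fun _ => ⟨0, by omega⟩, ?_⟩
      · intro i hi
        exact absurd hi (Nat.not_lt_zero _)
      · intro v hv
        obtain ⟨h, -⟩ := (hI' _ _).1 hv
        exact absurd h (Nat.not_lt_zero _)
      · rw [prR_iff hTM]
        exact Nat.prime_two
      · rw [bound_iff hPL hDG _ _ one_ne_zero]
        exact h1N
      · intro U _ _ i hi
        exact absurd hi (Nat.not_lt_zero _)
    · have hq2 := hq.two_le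
      have hqN : q < N := by
        have : (q + 1) ^ 1 ≤ (q + 1) ^ (3 * m) := Nat.pow_le_pow_right (by omega) (by omega)
        rw [pow_one] at this
        omega
      have hmN : m < N := by
        have : 3 * m < (q + 1) ^ (3 * m) := Nat.lt_pow_self (by omega)
        omega
      have hle : (q + 1) ^ m ≤ N :=
        (Nat.pow_le_pow_right (by omega) (by omega : m ≤ 3 * m)).trans hlt.le
      have hex' : ∀ c : Fin 3, ∃ X : Fin N, ∀ i < m, bdig (q + 1) X i = (p i c).val :=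
        fun c => exists_code hle (fun i => (p i c).val) fun i => ZMod.val_lt _
      choose P hP using hex'
      refine ⟨⟨q, hqN⟩, ⟨m, hmN⟩, ?_, ?_, ?_, ?_, P, ?_⟩
      · intro i hi
        exact ⟨w ⟨i, hi⟩, (hI' _ _).2 ⟨hi, rfl⟩⟩
      · intro v hv
        obtain ⟨h, -⟩ := (hI' _ _).1 hv
        exact absurd h (lt_irrefl _)
      · rw [prR_iff hTM]
        exact hq
      · rw [bound_iff hPL hDG _ _ (show q ≠ 0 by omega)]
        exact hlt
      · refine (core_iff hw hI' hPL hTM hDG ⟨q, hqN⟩ ⟨m, hmN⟩ rfl hle P).2 ?_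
        intro u hu1 hu2
        refine hp u ?_ hu2
        rintro x y hxy
        obtain ⟨hx, hy, -⟩ := id hxy
        rw [← hu1 x y hxy]
        refine Finset.sum_congr rfl fun c _ => ?_
        show _ = (((bdig (q + 1) (P c) x : ℕ) : ZMod (q + 1)) -
          ((bdig (q + 1) (P c) y : ℕ) : ZMod (q + 1))) * _
        rw [hP c x hx, hP c y hy, ZMod.natCast_zmod_val, ZMod.natCast_zmod_val]

end

/-! ### The order of the arrays -/

/-- The position of an array. -/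
def rkU : WU → ℕ
  | .cl => 0
  | .ker => 1
  | .ix => 2
  | .pl => 3
  | .tm => 4
  | .dg => 5

/-- The arrays in the order of computation. -/
def enumU : Fin 6 → WU := ![.cl, .ker, .ix, .pl, .tm, .dg]

theorem rkU_enumU (i : Fin 6) : rkU (enumU i) = i := by
  fin_cases i <;> rfl

theorem enumU_injective : Injective enumU := by
  intro i j h
  have := congrArg rkU h
  rw [rkU_enumU, rkU_enumU] at this
  exact Fin.ext this

theorem exists_enumU (w : WU) : ∃ i : Fin 6, (i : ℕ) = rkU w ∧ w = enumU i := by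
  cases w
  · exact ⟨0, rfl, rfl⟩
  · exact ⟨1, rfl, rfl⟩
  · exact ⟨2, rfl, rfl⟩
  · exact ⟨3, rfl, rfl⟩
  · exact ⟨4, rfl, rfl⟩
  · exact ⟨5, rfl, rfl⟩

theorem RU_congr (w : WU) (N : ℕ) (M M' : Arr (Option WU)) (h0 : M none = M' none)
    (h : ∀ w', rkU w' ≤ rkU w → M (some w') = M' (some w')) (E : iu w → Fin N) :
    RU w N M E → RU w N M' E := by
  have hadj : TDefD.Adj N M = TDefD.Adj N M' := adj_congr h0
  have hcl : ucl N M = ucl N M' := by
    funext s v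
    unfold ucl
    rw [tab_congr (h .cl (Nat.zero_le _))]
  cases w with
  | cl =>
    simp only [RU]
    rw [hadj, hcl]
    exact id
  | ker =>
    simp only [RU]
    rw [hadj, hcl]
    exact id
  | ix =>
    have h1 : uker N M = uker N M' := by
      funext v
      unfold uker
      rw [tab_congr (h .ker (by simp [rkU]))]
    have h2 : uix N M = uix N M' := by
      funext j v
      unfold uix
      rw [tab_congr (h .ix le_rfl)]
    simp only [RU]
    rw [h1, h2]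
    exact id
  | pl =>
    have h1 : upl N M = upl N M' := by
      funext q x y z
      unfold upl
      rw [tab_congr (h .pl le_rfl)]
    simp only [RU]
    rw [h1]
    exact id
  | tm =>
    have h1 : upl N M = upl N M' := by
      funext q x y z
      unfold upl
      rw [tab_congr (h .pl (by simp [rkU]))]
    have h2 : utm N M = utm N M' := by
      funext q x y z
      unfold utm
      rw [tab_congr (h .tm le_rfl)]
    simp only [RU]
    rw [h1, h2]
    exact id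
  | dg =>
    have h1 : udg N M = udg N M' := by
      funext q x y z
      unfold udg
      rw [tab_congr (h .dg le_rfl)]
    simp only [RU]
    rw [h1]
    exact id

/-! ### The machine -/

/-- **The machine for all dense graphs.** -/
theorem machineU (n0 : ℕ) (gs : ∀ m, SimpleGraph (Fin m) → Prop) :
    ∃ (f : Graph → List Bool) (M : TM2ComputableInPolyTime Graph.encode id f),
      (∀ k, Finite (M.tm.Γ k)) ∧ ∀ I : Graph, ∃ b : Bool, f I = [b] ∧
        (b = true ↔ (I.n ≤ n0 ∧ gs I.n I.G) ∨ (n0 < I.n ∧ AccU I.G)) := by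
  obtain ⟨f, M, -, hM2, hf⟩ := machine_of_system (W1 := WU) (ι := iu) polytimeDeg (A := 15)
    (q := 60 + n0) enumU enumU_injective (fun i => RU (enumU i))
    (fun i => (ud_RU _).up (by omega))
    (by
      intro i N M M' hMM E
      refine RU_congr _ N M M' (hMM none (Or.inl rfl)) ?_ E
      intro w' hw'
      obtain ⟨j, hj, rfl⟩ := exists_enumU w'
      refine hMM _ (Or.inr ⟨j, ?_, rfl⟩)
      rw [rkU_enumU, rkU_enumU] at hw'
      exact hw')
    (by
      intro w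
      cases w <;> simp [iu])
    (by omega)
    (fun N a => SmallN n0 gs (TDefD.Adj N a) ∨
      (n0 < N ∧ AccUR (TDefD.Adj N a) (ucl N a) (uix N a) (upl N a) (utm N a) (udg N a)))
    (((ud_small n0 gs).up (by omega)).or (((ud_big n0).up (by omega)).and
      (ud_accUR.up (by omega))))
  refine ⟨f, M, hM2, fun I => ?_⟩
  obtain ⟨a, b, hadj, hl, hb1, hb2⟩ := hf I
  refine ⟨b, hb1, ?_⟩
  have hl' : ∀ w, IsLfp iu I.n a w (RU w I.n) := by
    intro w
    obtain ⟨i, _, rfl⟩ := exists_enumU w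
    exact hl i
  have hA : TDefD.Adj I.n a = I.G.Adj := by
    funext x y
    exact propext (hadj x y)
  have hcl := ucl_eq hA (hl' .cl)
  have hker := uker_eq hA (hl' .cl) (hl' .ker)
  have hex : ∃ (m : ℕ) (H : SimpleGraph (Fin m)) (w : Fin m → Fin I.n), IsKer4 I.G H w := by
    obtain ⟨m, -, H, w, hw⟩ := exists_isKer4 (G := I.G) (K := I.n) fun S _ => by
      have := Finset.card_le_univ S
      simpa using this
    exact ⟨m, H, w, hw⟩
  rw [hb2, hA, hcl, smallN_iff, accUR_iff hex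
    (fun hw j v => uix_iff (hl' .ix) hker _ hw.1 hw.2.1 j v)
    (upl_iff (hl' .pl)) (utm_iff (hl' .pl) (hl' .tm)) (udg_iff (hl' .dg))]

end Pool.Agent.Lib.MP_37c7bf_co_h74dm
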