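import Pool.Agent.Lib.MP_37c7bf_co_h74dm.ArithU

/-! # The meaning of the arrays of the uniform machine -/

namespace Pool.Agent.Lib.MP_37c7bf_co_h74dm

open Pool.Agent.Lib.PolyTM Pool.Agent.Lib.FOLFP Pool.Agent.Lib.FOLFPd Function Turing

open Pool.Agent.Lib.MP_37c7bf_co_h77dm (InC Ker Ker4 KAdj IsKer4 AccU)
open Pool.Agent.Lib.MP_37c7bf_co_h26dm (ThreeR GlR StR stR_iff)
open Pool.Agent.Lib.MP_37c7bf_co_Poly (SeedR)

theorem vec4e {α : Type*} (E : Fin 4 → α) : ![E 0, E 1, E 2, E 3] = E := by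
  funext i
  fin_cases i <;> rfl

/-! ### Digits -/

theorem pow_dvd_succ_iff (b P j : ℕ) : (b + 1) ^ j ∣ P + 1 ↔ ∀ i < j, bdig (b + 1) P i = b := by
  induction j with
  | zero => simp
  | succ j ih =>
    have hstep : (b + 1) ^ (j + 1) ∣ P + 1 ↔ (b + 1) ^ j ∣ P + 1 ∧ bdig (b + 1) P j = b := by
      constructor
      · intro h
        have h1 : (b + 1) ^ j ∣ P + 1 := (pow_dvd_pow _ (Nat.le_succ j)).trans h
        refine ⟨h1, ?_⟩
        obtain ⟨c, hc⟩ := h
        have h2 : (P + 1) / (b + 1) ^ j = (b + 1) * c := by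
          rw [hc, pow_succ, mul_assoc, Nat.mul_div_cancel_left _ (pow_pos (by omega) _)]
        rw [Nat.succ_div_of_dvd h1] at h2
        unfold bdig
        have h3 : (P / (b + 1) ^ j + 1) % (b + 1) = 0 := by rw [h2]; simp
        have h4 : P / (b + 1) ^ j % (b + 1) < b + 1 := Nat.mod_lt _ (by omega)
        rw [Nat.add_mod] at h3
        rcases Nat.eq_zero_or_pos b with hb | hb
        · subst hb; omega
        · rw [Nat.mod_eq_of_lt (a := 1) (by omega)] at h3
          by_contra hne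
          rw [Nat.mod_eq_of_lt (by omega)] at h3
          omega
      · rintro ⟨h1, h2⟩
        unfold bdig at h2
        obtain ⟨c, hc⟩ := h1
        have h3 : (P + 1) / (b + 1) ^ j = c := by
          rw [hc, Nat.mul_div_cancel_left _ (pow_pos (by omega) _)]
        rw [Nat.succ_div_of_dvd ⟨c, hc⟩] at h3
        have h4 : (b + 1) ∣ c := by
          rw [← h3]
          refine ⟨P / (b + 1) ^ j / (b + 1) + 1, ?_⟩
          have := Nat.div_add_mod (P / (b + 1) ^ j) (b + 1)
          rw [h2] at this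
          rw [mul_add, mul_one]
          omega
        obtain ⟨d, rfl⟩ := h4
        exact ⟨d, by rw [hc, pow_succ, mul_assoc]⟩
    rw [hstep, ih]
    constructor
    · rintro ⟨h1, h2⟩ i hi
      rcases Nat.lt_succ_iff_lt_or_eq.1 hi with h | rfl
      · exact h1 i h
      · exact h2
    · intro h
      exact ⟨fun i hi => h i (by omega), h j (by omega)⟩

theorem bdig_succ_of_carry {b P j : ℕ} (h : ∀ i < j, bdig (b + 1) P i = b) :
    (bdig (b + 1) P j < b ∧ bdig (b + 1) (P + 1) j = bdig (b + 1) P j + 1) ∨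
      (bdig (b + 1) P j = b ∧ bdig (b + 1) (P + 1) j = 0) := by
  have h1 := (pow_dvd_succ_iff b P j).2 h
  have h2 : bdig (b + 1) P j < b + 1 := bdig_lt (by omega) _ _
  have h3 : bdig (b + 1) (P + 1) j = (bdig (b + 1) P j + 1) % (b + 1) := by
    unfold bdig
    rw [Nat.succ_div_of_dvd h1, Nat.mod_add_mod]
  rw [h3]
  rcases Nat.lt_or_ge (bdig (b + 1) P j) b with h4 | h4
  · left
    exact ⟨h4, Nat.mod_eq_of_lt (by omega)⟩
  · right
    have h5 : bdig (b + 1) P j = b := by omega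
    exact ⟨h5, by rw [h5, Nat.mod_self]⟩

theorem bdig_succ_of_not_carry {b P j : ℕ} (h : ∃ i < j, bdig (b + 1) P i < b) :
    bdig (b + 1) (P + 1) j = bdig (b + 1) P j := by
  have h1 : ¬ (b + 1) ^ j ∣ P + 1 := by
    intro hd
    obtain ⟨i, hi, h⟩ := h
    have := (pow_dvd_succ_iff b P j).1 hd i hi
    omega
  unfold bdig
  rw [Nat.succ_div_of_not_dvd h1]

theorem bdig_zero (b j : ℕ) : bdig b 0 j = 0 := by
  unfold bdig
  simp

section
variable {N : ℕ} {a : Arr (Option WU)}

/-! ### Addition -/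

theorem upl_iff (h : IsLfp iu N a .pl (RU .pl N)) (q x y z : Fin N) :
    upl N a q x y z ↔ (z : ℕ) = (x + y) % (q + 1) := by
  have hclosed : ∀ q x y z : Fin N, PlR (upl N a) q x y z → upl N a q x y z := fun q x y z h' =>
    h.1 ![q, x, y, z] h'
  have hsucc : ∀ q s : ℕ, ((s + 1) % (q + 1) = s % (q + 1) + 1 ∧ s % (q + 1) < q) ∨
      (s % (q + 1) = q ∧ (s + 1) % (q + 1) = 0) := by
    intro q s
    have h1 : s % (q + 1) < q + 1 := Nat.mod_lt _ (by omega)
    rcases Nat.lt_or_ge (s % (q + 1)) q with h | h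
    · left
      refine ⟨?_, h⟩
      rw [← Nat.mod_add_mod, Nat.mod_eq_of_lt (by omega)]
    · right
      have h2 : s % (q + 1) = q := by omega
      refine ⟨h2, ?_⟩
      rw [← Nat.mod_add_mod, h2, Nat.mod_self]
  constructor
  · intro hz
    refine h.2 (fun E => (E 3 : ℕ) = (E 1 + E 2) % (E 0 + 1)) ?_ ![q, x, y, z] hz
    intro M _ hM E hE
    have hM' : ∀ q x y z : Fin N, upl N M q x y z → (z : ℕ) = (x + y) % (q + 1) :=
      fun q x y z h' => hM ![q, x, y, z] h'
    have hE' : PlR (upl N M) (E 0) (E 1) (E 2) (E 3) := hE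
    show (E 3 : ℕ) = (E 1 + E 2) % (E 0 + 1)
    have hstep : ∀ z z' q : Fin N, ((z : ℕ) = z' + 1 ∧ z' < q) ∨ (z' = q ∧ (z : ℕ) = 0) →
        ∀ s : ℕ, (z' : ℕ) = s % (q + 1) → (z : ℕ) = (s + 1) % (q + 1) := by
      intro z z' q h1 s hs
      rcases hsucc q s with ⟨h2, h3⟩ | ⟨h2, h3⟩ <;> rcases h1 with ⟨h4, h5⟩ | ⟨h4, h5⟩
      · rw [h2, h4, hs]
      · subst h4
        omega
      · rw [Fin.lt_def] at h5
        omega
      · rw [h3, h5]
    rcases hE' with ⟨h1, h2, h3⟩ | ⟨t, z', h1 | h1, h2⟩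
    · simp [h1, h2, h3]
    · obtain ⟨h1, h3⟩ := h1
      have h4 := hM' _ _ _ _ h3
      have h5 := hstep _ _ _ h2 _ h4
      rw [h5, h1]
      congr 1
      omega
    · obtain ⟨h1, h3⟩ := h1
      have h4 := hM' _ _ _ _ h3
      have h5 := hstep _ _ _ h2 _ h4
      rw [h5, h1]
      congr 1
  · have key : ∀ (q : Fin N) (x : ℕ) (hx : x < N) (y : ℕ) (hy : y < N) (z : Fin N),
        (z : ℕ) = (x + y) % (q + 1) → upl N a q ⟨x, hx⟩ ⟨y, hy⟩ z := by
      have hlt : ∀ (q : Fin N) (s : ℕ), s % ((q : ℕ) + 1) < N := fun q s =>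
        lt_of_le_of_lt (Nat.lt_succ_iff.1 (Nat.mod_lt _ (by omega))) q.2
      have hrule : ∀ (q z : Fin N) (s : ℕ), (z : ℕ) = (s + 1) % (q + 1) →
          ((z : ℕ) = (⟨s % (q + 1), hlt q s⟩ : Fin N) + 1 ∧
            (⟨s % (q + 1), hlt q s⟩ : Fin N) < q) ∨
            ((⟨s % (q + 1), hlt q s⟩ : Fin N) = q ∧ (z : ℕ) = 0) := by
        intro q z s hz
        rcases hsucc q s with ⟨h2, h3⟩ | ⟨h2, h3⟩
        · left
          exact ⟨by rw [hz, h2], by rw [Fin.lt_def]; exact h3⟩
        · right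
          exact ⟨Fin.ext h2, by rw [hz, h3]⟩
      intro q x
      induction x with
      | zero =>
        intro hx y
        induction y with
        | zero =>
          intro hy z hz
          exact hclosed _ _ _ _ (Or.inl ⟨rfl, rfl, by simpa using hz⟩)
        | succ y ih =>
          intro hy z hz
          refine hclosed _ _ _ _ (Or.inr ⟨⟨y, by omega⟩, ⟨(0 + y) % (q + 1), hlt q _⟩,
            Or.inr ⟨rfl, ih (by omega) _ rfl⟩, hrule q z (0 + y) ?_⟩)
          rw [hz]
          rfl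
      | succ x ih =>
        intro hx y hy z hz
        refine hclosed _ _ _ _ (Or.inr ⟨⟨x, by omega⟩, ⟨(x + y) % (q + 1), hlt q _⟩,
            Or.inl ⟨rfl, ih (by omega) y hy _ rfl⟩, hrule q z (x + y) ?_⟩)
        rw [hz]
        congr 1
        omega
    intro hz
    exact key q x x.2 y y.2 z hz

/-! ### Multiplication -/

theorem utm_iff (hp : IsLfp iu N a .pl (RU .pl N)) (h : IsLfp iu N a .tm (RU .tm N))
    (q x y z : Fin N) : utm N a q x y z ↔ (z : ℕ) = (x * y) % (q + 1) := by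
  have hclosed : ∀ q x y z : Fin N, TmR (upl N a) (utm N a) q x y z → utm N a q x y z :=
    fun q x y z h' => h.1 ![q, x, y, z] h'
  constructor
  · intro hz
    refine h.2 (fun E => (E 3 : ℕ) = (E 1 * E 2) % (E 0 + 1)) ?_ ![q, x, y, z] hz
    intro M hMa hM E hE
    have hM' : ∀ q x y z : Fin N, utm N M q x y z → (z : ℕ) = (x * y) % (q + 1) :=
      fun q x y z h' => hM ![q, x, y, z] h'
    have hpl : upl N M = upl N a := by
      funext q x y z
      unfold upl
      rw [tab_congr (hMa (some .pl) (by simp))]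
    have hE' : TmR (upl N M) (utm N M) (E 0) (E 1) (E 2) (E 3) := hE
    rw [hpl] at hE'
    show (E 3 : ℕ) = (E 1 * E 2) % (E 0 + 1)
    rcases hE' with ⟨h1, h2⟩ | ⟨t, z', h1, h2, h3⟩
    · simp [h1, h2]
    · rw [upl_iff hp] at h3
      rw [h3, hM' _ _ _ _ h2, h1, Nat.mod_add_mod]
      congr 1
  · have key : ∀ (q x : Fin N) (y : ℕ) (hy : y < N) (z : Fin N),
        (z : ℕ) = (x * y) % (q + 1) → utm N a q x ⟨y, hy⟩ z := by
      intro q x y
      induction y with
      | zero =>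
        intro hy z hz
        exact hclosed _ _ _ _ (Or.inl ⟨rfl, by simpa using hz⟩)
      | succ y ih =>
        intro hy z hz
        refine hclosed _ _ _ _ (Or.inr ⟨⟨y, by omega⟩, ⟨(x * y) % (q + 1),
          lt_of_le_of_lt (Nat.lt_succ_iff.1 (Nat.mod_lt _ (by omega))) q.2⟩, rfl,
          ih (by omega) _ rfl, ?_⟩)
        rw [upl_iff hp, hz]
        show _ = ((x * y) % (q + 1) + (x : ℕ)) % (q + 1)
        rw [Nat.mod_add_mod]
        congr 1
    intro hz
    exact key q x y y.2 z hz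

/-! ### Digits -/

theorem udg_iff (h : IsLfp iu N a .dg (RU .dg N)) (q P j d : Fin N) :
    udg N a q P j d ↔ (d : ℕ) = bdig (q + 1) P j := by
  have hclosed : ∀ q P j d : Fin N, DgR (udg N a) q P j d → udg N a q P j d :=
    fun q x y z h' => h.1 ![q, x, y, z] h'
  constructor
  · intro hz
    refine h.2 (fun E => (E 3 : ℕ) = bdig (E 0 + 1) (E 1) (E 2)) ?_ ![q, P, j, d] hz
    intro M _ hM E hE
    have hM' : ∀ q P j d : Fin N, udg N M q P j d → (d : ℕ) = bdig (q + 1) P j :=
      fun q x y z h' => hM ![q, x, y, z] h'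
    have hE' : DgR (udg N M) (E 0) (E 1) (E 2) (E 3) := hE
    show (E 3 : ℕ) = bdig (E 0 + 1) (E 1) (E 2)
    generalize E 0 = q at *
    generalize E 1 = P at *
    generalize E 2 = j at *
    generalize E 3 = d at *
    rcases hE' with ⟨h1, h2⟩ | ⟨P', h1, h2 | h2⟩
    · rw [h1, h2, bdig_zero]
    · obtain ⟨h2, h3⟩ := h2
      have hc : ∀ i < (j : ℕ), bdig ((q : ℕ) + 1) P' i = q := by
        intro i hi
        exact (hM' _ _ _ _ (h2 ⟨i, by omega⟩ (by rw [Fin.lt_def]; exact hi))).symm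
      rw [h1]
      rcases bdig_succ_of_carry hc with ⟨g1, g2⟩ | ⟨g1, g2⟩
      · rcases h3 with ⟨d', h4, h5, h6⟩ | ⟨h4, h5⟩
        · rw [g2, h6, hM' _ _ _ _ h4]
        · have := hM' _ _ _ _ h4
          omega
      · rcases h3 with ⟨d', h4, h5, h6⟩ | ⟨h4, h5⟩
        · have := hM' _ _ _ _ h4
          rw [Fin.lt_def] at h5
          omega
        · rw [g2, h5]
    · obtain ⟨⟨i, hi, d', hd', h3⟩, h4⟩ := h2
      rw [h1, bdig_succ_of_not_carry ⟨i, hi, ?_⟩]
      · exact hM' _ _ _ _ h4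
      · rw [← hM' _ _ _ _ h3]
        exact hd'
  · have key : ∀ (q : Fin N) (P : ℕ) (hP : P < N) (j d : Fin N),
        (d : ℕ) = bdig (q + 1) P j → udg N a q ⟨P, hP⟩ j d := by
      intro q P
      induction P with
      | zero =>
        intro hP j d hd
        exact hclosed _ _ _ _ (Or.inl ⟨rfl, by rw [hd, bdig_zero]⟩)
      | succ P ih =>
        intro hP j d hd
        refine hclosed _ _ _ _ (Or.inr ⟨⟨P, by omega⟩, rfl, ?_⟩)
        have ih' := ih (by omega)
        have hlt : ∀ i, bdig ((q : ℕ) + 1) P i < N := fun i =>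
          lt_of_le_of_lt (Nat.lt_succ_iff.1 (bdig_lt (by omega) _ _)) q.2
        by_cases hc : ∀ i < (j : ℕ), bdig ((q : ℕ) + 1) P i = q
        · left
          refine ⟨fun i hi => ih' i q (hc i hi).symm, ?_⟩
          rcases bdig_succ_of_carry hc with ⟨g1, g2⟩ | ⟨g1, g2⟩
          · left
            refine ⟨⟨bdig ((q : ℕ) + 1) P j, hlt j⟩, ih' j _ rfl, by rw [Fin.lt_def]; exact g1, ?_⟩
            rw [hd, g2]
          · right
            exact ⟨ih' j q g1.symm, by rw [hd, g2]⟩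
        · right
          push Not at hc
          obtain ⟨i, hi, hne⟩ := hc
          have h1 : bdig ((q : ℕ) + 1) P i < q + 1 := bdig_lt (by omega) _ _
          have h2 : bdig ((q : ℕ) + 1) P i < q := by omega
          refine ⟨⟨⟨i, by omega⟩, by rw [Fin.lt_def]; exact hi, ⟨bdig ((q : ℕ) + 1) P i, hlt i⟩,
            by rw [Fin.lt_def]; exact h2, ih' _ _ rfl⟩, ih' j d ?_⟩
          rw [hd, bdig_succ_of_not_carry ⟨i, hi, h2⟩]
    intro hd
    exact key q P P.2 j d hd

/-! ### The kernel set and its elements -/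

theorem uix_iff {P : Fin N → Prop} (h : IsLfp iu N a .ix (RU .ix N)) (hk : uker N a = P) {m : ℕ}
    (w : Fin m → Fin N) (hw : StrictMono w) (hP : ∀ v, P v ↔ ∃ l, w l = v) (j v : Fin N) :
    uix N a j v ↔ ∃ h : (j : ℕ) < m, w ⟨j, h⟩ = v := by
  have hclosed : ∀ j v : Fin N, IxR (uker N a) (uix N a) j v → uix N a j v :=
    fun j v h' => h.1 ![j, v] h'
  rw [hk] at hclosed
  constructor
  · intro hz
    refine h.2 (fun E => ∃ h : (E 0 : ℕ) < m, w ⟨E 0, h⟩ = E 1) ?_ ![j, v] hz
    intro M hMa hM E hE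
    have hM' : ∀ j v : Fin N, uix N M j v → ∃ h : (j : ℕ) < m, w ⟨j, h⟩ = v :=
      fun j v h' => hM ![j, v] h'
    have hker : uker N M = P := by
      rw [← hk]
      funext v
      unfold uker
      rw [tab_congr (hMa (some .ker) (by simp))]
    have hE' : IxR (uker N M) (uix N M) (E 0) (E 1) := hE
    rw [hker] at hE'
    show ∃ h : (E 0 : ℕ) < m, w ⟨E 0, h⟩ = E 1
    generalize E 0 = j at *
    generalize E 1 = v at *
    obtain ⟨hv, h1⟩ := hE'
    obtain ⟨l, rfl⟩ := (hP v).1 hv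
    rcases h1 with ⟨h0, h1⟩ | ⟨j', u, hj, hu, huv, hbet⟩
    · have hm : 0 < m := by have := l.2; omega
      refine ⟨by omega, ?_⟩
      by_contra hne
      have hlt : (⟨j, by omega⟩ : Fin m) < l := by
        rw [Fin.lt_def]
        rcases Nat.eq_zero_or_pos (l : ℕ) with h2 | h2
        · exact absurd (congrArg w (Fin.ext (by simp [h0, h2]))) hne
        · simpa [h0] using h2
      exact h1 _ (hw hlt) ((hP _).2 ⟨_, rfl⟩)
    · obtain ⟨him, rfl⟩ := hM' _ _ hu
      have hil := hw.lt_iff_lt.1 huv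
      rw [Fin.lt_def] at hil
      have hil' : (j' : ℕ) < (l : ℕ) := hil
      have hlm := l.2
      have hm : (j : ℕ) < m := by omega
      refine ⟨hm, ?_⟩
      by_contra hne
      have hlt : (⟨j, hm⟩ : Fin m) < l := by
        rw [Fin.lt_def]
        show (j : ℕ) < (l : ℕ)
        rcases Nat.lt_or_ge j l with h0 | h0
        · exact h0
        · have h1 : (l : ℕ) = j := by omega
          exact absurd (congrArg w (Fin.ext h1.symm)) hne
      refine hbet (w ⟨j, hm⟩) (hw ?_) (hw hlt) ((hP _).2 ⟨_, rfl⟩)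
      rw [Fin.lt_def]
      show (j' : ℕ) < (j : ℕ)
      omega
  · have key : ∀ (j : ℕ) (hj : j < N) (h : j < m), uix N a ⟨j, hj⟩ (w ⟨j, h⟩) := by
      intro j
      induction j with
      | zero =>
        intro hj h
        refine hclosed _ _ ⟨(hP _).2 ⟨_, rfl⟩, Or.inl ⟨rfl, fun u hu hPu => ?_⟩⟩
        obtain ⟨l, rfl⟩ := (hP u).1 hPu
        have := hw.lt_iff_lt.1 hu
        rw [Fin.lt_def] at this
        exact absurd this (Nat.not_lt_zero _)
      | succ j ih =>
        intro hj h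
        refine hclosed _ _ ⟨(hP _).2 ⟨_, rfl⟩, Or.inr ⟨⟨j, by omega⟩, w ⟨j, by omega⟩, rfl,
          ih (by omega) (by omega), hw ?_, ?_⟩⟩
        · rw [Fin.lt_def]
          exact Nat.lt_succ_self j
        · intro z hz1 hz2 hz
          obtain ⟨l, rfl⟩ := (hP z).1 hz
          have h1 := hw.lt_iff_lt.1 hz1
          have h2 := hw.lt_iff_lt.1 hz2
          rw [Fin.lt_def] at h1 h2
          have h1' : j < (l : ℕ) := h1
          have h2' : (l : ℕ) < j + 1 := h2
          omega
    rintro ⟨h, rfl⟩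
    exact key j j.2 h

theorem ucl_eq {G : SimpleGraph (Fin N)} (hA : TDefD.Adj N a = G.Adj)
    (h : IsLfp iu N a .cl (RU .cl N)) : ucl N a = InC G := by
  funext s v
  apply propext
  constructor
  · intro hs
    refine h.2 (fun E => InC G (fun i => E (.inl i)) (E (.inr ()))) ?_
      (Sum.elim s fun _ => v) hs
    intro M' hM' hMP E hE
    have hadj' : TDefD.Adj N M' = G.Adj := by
      rw [← hA]
      exact adj_congr (hM' none (by simp))
    simp only [RU] at hE
    rw [hadj'] at hE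
    refine InC.of_step (MP_37c7bf_co_h77dm.Step.mono ?_ hE)
    intro s v hsv
    exact hMP (Sum.elim s fun _ => v) hsv
  · intro hs
    refine hs (ucl N a) fun s v hstep => ?_
    refine h.1 (Sum.elim s fun _ => v) ?_
    simp only [RU]
    rw [hA]
    exact hstep

theorem uker_eq {G : SimpleGraph (Fin N)} (hA : TDefD.Adj N a = G.Adj)
    (hc : IsLfp iu N a .cl (RU .cl N)) (h : IsLfp iu N a .ker (RU .ker N)) :
    uker N a = Ker4 G := by
  funext v
  apply propext
  have := h.tab_iff (fun M' hM' E hE => by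
    simp only [RU] at hE ⊢
    have h1 : TDefD.Adj N M' = TDefD.Adj N a := adj_congr (hM' none (by simp))
    have h2 : ucl N M' = ucl N a := by
      funext s v
      unfold ucl
      rw [tab_congr (hM' (some .cl) (by simp))]
    rwa [h1, h2] at hE) (fun _ => v)
  refine this.trans ?_
  simp only [RU]
  rw [hA, ucl_eq hA hc]
  exact Iff.rfl

end

end Pool.Agent.Lib.MP_37c7bf_co_h74dm
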